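import Mathlib

/-! # The lower bound `k + 1` -/

set_option autoImplicit false

open MeasureTheory Filter Finset
open scoped ENNReal Real

namespace Pool.Agent.Y867.WS

/-- with at most `k` variables the values are never `τ ^ (-κ)` dense -/
theorem lower_s (k s : ℕ) (hk : 1 ≤ k) (hs : s ≤ k) (μ : Fin s → ℝ) (κ : ℝ) (hκ : 0 < κ) (T : ℝ) :
    ∃ τ : ℝ, T ≤ τ ∧ ∀ x : Fin s → ℕ, (∀ l, μ l < x l) → τ ^ (-κ) ≤ |∑ l, ((x l : ℝ) - μ l) ^ k - τ| := by
  by_contra hcon
  push Not at hcon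
  obtain ⟨A, hA1⟩ := exists_nat_ge (∑ l, |μ l|)
  have hAl : ∀ l, |μ l| ≤ A := by
    intro l
    exact (Finset.single_le_sum (f := fun l => |μ l|) (fun i _ => abs_nonneg _) (Finset.mem_univ l)).trans hA1
  -- for every `P : ℕ` large: the interval `[P ^ k, 2 P ^ k]` is covered
  have hcov : ∀ P : ℕ, 1 ≤ P → T ≤ (P : ℝ) ^ k →
      (P : ℝ) ^ k ≤ ((((3 + A) * P + 1 : ℕ) : ℝ) ^ s) * (2 * ((P : ℝ) ^ k) ^ (-κ)) := by
    intro P hP hTP
    have hP' : (1 : ℝ) ≤ P := by exact_mod_cast hP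
    have hPk : (1 : ℝ) ≤ (P : ℝ) ^ k := one_le_pow₀ hP'
    set δ : ℝ := ((P : ℝ) ^ k) ^ (-κ) with hδ
    have hδ0 : 0 < δ := Real.rpow_pos_of_pos (by linarith) _
    have hδ1 : δ ≤ 1 := Real.rpow_le_one_of_one_le_of_nonpos hPk (by linarith)
    have hsub : Set.Icc ((P : ℝ) ^ k) (2 * (P : ℝ) ^ k) ⊆
        ⋃ x ∈ Fintype.piFinset (fun _ : Fin s => Finset.range ((3 + A) * P + 1)),
          Set.Icc (∑ l, ((x l : ℝ) - μ l) ^ k - δ) (∑ l, ((x l : ℝ) - μ l) ^ k + δ) := by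
      intro τ hτ
      obtain ⟨x, hxμ, hx⟩ := hcon τ (hTP.trans hτ.1)
      have hτδ : τ ^ (-κ) ≤ δ := Real.rpow_le_rpow_of_nonpos (by linarith) hτ.1 (by linarith)
      have h1 := abs_lt.mp (hx.trans_le hτδ)
      have h2 : ∀ l, x l ∈ Finset.range ((3 + A) * P + 1) := by
        intro l
        rw [Finset.mem_range, Nat.lt_succ_iff]
        by_contra hgt
        push Not at hgt
        have h3 : ((x l : ℝ) - μ l) ^ k ≤ ∑ l, ((x l : ℝ) - μ l) ^ k :=
          Finset.single_le_sum (f := fun l => ((x l : ℝ) - μ l) ^ k)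
            (fun i _ => pow_nonneg (by linarith [hxμ i]) _) (Finset.mem_univ l)
        have h4 : ((3 + (A : ℝ)) * P) ≤ x l := by
          have : (((3 + A) * P : ℕ) : ℝ) ≤ x l := by exact_mod_cast hgt.le
          push_cast at this
          exact this
        have h4b : 3 * (P : ℝ) ≤ (x l : ℝ) - μ l := by
          have h5 := (abs_le.mp (hAl l)).2
          have h6 : (A : ℝ) * 1 ≤ A * P := mul_le_mul_of_nonneg_left hP' (by positivity)
          linarith
        have h5 : (3 * (P : ℝ)) ^ k ≤ ((x l : ℝ) - μ l) ^ k := pow_le_pow_left₀ (by positivity) h4b k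
        have h6 : 3 * (P : ℝ) ^ k ≤ (3 * (P : ℝ)) ^ k := by
          rw [mul_pow]
          apply mul_le_mul_of_nonneg_right _ (by positivity)
          exact le_self_pow₀ (by norm_num) (by omega)
        have h10 : ∑ l, ((x l : ℝ) - μ l) ^ k < 3 * (P : ℝ) ^ k := by linarith [hτ.2]
        linarith
      rw [Set.mem_iUnion₂]
      refine ⟨x, Fintype.mem_piFinset.mpr h2, ?_⟩
      constructor <;> linarith [h1.1, h1.2]
    have h1 := measure_mono (μ := volume) hsub
    rw [Real.volume_Icc] at h1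
    have h2 : volume (⋃ x ∈ Fintype.piFinset (fun _ : Fin s => Finset.range ((3 + A) * P + 1)),
          Set.Icc (∑ l, ((x l : ℝ) - μ l) ^ k - δ) (∑ l, ((x l : ℝ) - μ l) ^ k + δ)) ≤
          ENNReal.ofReal (((((3 + A) * P + 1 : ℕ) : ℝ) ^ s) * (2 * δ)) := by
      refine (measure_biUnion_finset_le _ _).trans ?_
      have h3 : ∀ x ∈ Fintype.piFinset (fun _ : Fin s => Finset.range ((3 + A) * P + 1)),
          volume (Set.Icc (∑ l, ((x l : ℝ) - μ l) ^ k - δ) (∑ l, ((x l : ℝ) - μ l) ^ k + δ)) = ENNReal.ofReal (2 * δ) := by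
        intro x _
        rw [Real.volume_Icc]
        congr 1
        ring
      rw [Finset.sum_congr rfl h3, Finset.sum_const, Fintype.card_piFinset]
      simp only [Finset.card_range, Finset.prod_const, Finset.card_univ, Fintype.card_fin]
      rw [nsmul_eq_mul, ← ENNReal.ofReal_natCast, ← ENNReal.ofReal_mul (by positivity)]
      apply le_of_eq
      push_cast
      rfl
    have h3 := h1.trans h2
    rw [ENNReal.ofReal_le_ofReal_iff (by positivity)] at h3
    linarith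
  -- contradiction for large `P`
  have hlim : Tendsto (fun P : ℕ => ((P : ℝ) ^ k) ^ (-κ)) atTop (nhds 0) := by
    have h1 : Tendsto (fun P : ℕ => (P : ℝ) ^ k) atTop atTop :=
      (tendsto_pow_atTop (by omega)).comp tendsto_natCast_atTop_atTop
    exact (tendsto_rpow_neg_atTop hκ).comp h1
  have hc : (0 : ℝ) < 1 / (2 * (4 + A) ^ k * 2) := by positivity
  have hev1 := hlim.eventually (gt_mem_nhds hc)
  have hev2 : ∀ᶠ P : ℕ in atTop, T ≤ (P : ℝ) ^ k := by
    have h1 : Tendsto (fun P : ℕ => (P : ℝ) ^ k) atTop atTop :=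
      (tendsto_pow_atTop (by omega)).comp tendsto_natCast_atTop_atTop
    exact h1.eventually (eventually_ge_atTop T)
  obtain ⟨P, hP1, hP2, hP3⟩ := (hev1.and (hev2.and (eventually_ge_atTop 1))).exists
  have h1 := hcov P hP3 hP2
  have hP' : (1 : ℝ) ≤ P := by exact_mod_cast hP3
  set δ : ℝ := ((P : ℝ) ^ k) ^ (-κ) with hδ
  have hδ0 : 0 < δ := Real.rpow_pos_of_pos (by positivity) _
  have h2 : ((((3 + A) * P + 1 : ℕ) : ℝ) ^ s) ≤ (4 + (A : ℝ)) ^ k * (P : ℝ) ^ k := by
    rw [← mul_pow]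
    have h3 : ((((3 + A) * P + 1 : ℕ) : ℝ)) ≤ (4 + (A : ℝ)) * P := by
      push_cast
      nlinarith
    have h4 : (1 : ℝ) ≤ (4 + (A : ℝ)) * P := by nlinarith [(by positivity : (0 : ℝ) ≤ A)]
    exact (pow_le_pow_left₀ (by positivity) h3 s).trans (pow_le_pow_right₀ h4 hs)
  have h3 : (P : ℝ) ^ k ≤ (4 + (A : ℝ)) ^ k * (P : ℝ) ^ k * (2 * δ) :=
    h1.trans (mul_le_mul_of_nonneg_right h2 (by positivity))
  rw [lt_div_iff₀ (by positivity)] at hP1
  have hPk : (0 : ℝ) < (P : ℝ) ^ k := by positivity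
  nlinarith

end Pool.Agent.Y867.WS
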