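import Pool.Agent.Y867.WC.GaK
import Pool.Agent.Helper276.VdC

/-! # The mean square of a Weyl sum of a shifted power over the shift -/

set_option autoImplicit false

open MeasureTheory Filter Finset
open scoped ENNReal Real

namespace Pool.Agent.Y867.WS

open Pool.Agent.W928.MW (e e_add e_norm e_cont)
open Pool.Agent.Y867.WR (sq_e)
open Pool.Agent.Y867.WC (XX XX_card e_zero)

theorem e_neg (x : ℝ) : e (-x) = (starRingEnd ℂ) (e x) := by
  unfold Pool.Agent.W928.MW.e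
  rw [← Complex.exp_conj]
  congr 1
  simp only [map_mul, Complex.conj_I, Complex.conj_ofReal, map_ofNat, Complex.ofReal_neg]
  ring

theorem pow_gap (m : ℕ) (y h : ℝ) (hy : 0 ≤ y) (hh : 0 ≤ h) : h * y ^ m ≤ (y + h) ^ (m + 1) - y ^ (m + 1) := by
  have h1 : y ^ m ≤ (y + h) ^ m := pow_le_pow_left₀ hy (by linarith) m
  have h2 : (y + h) * y ^ m ≤ (y + h) * (y + h) ^ m := mul_le_mul_of_nonneg_left h1 (by linarith)
  calc h * y ^ m = (y + h) * y ^ m - y * y ^ m := by ring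
    _ ≤ (y + h) * (y + h) ^ m - y * y ^ m := by linarith
    _ = _ := by ring

/-- the phases -/
theorem der1 (c h : ℝ) (m : ℕ) (y : ℝ) : HasDerivAt (fun y : ℝ => c * ((y + h) ^ (m + 1) - y ^ (m + 1)))
    (c * ((m : ℝ) + 1) * ((y + h) ^ m - y ^ m)) y := by
  have h1 : HasDerivAt (fun y : ℝ => (y + h) ^ (m + 1)) (((m + 1 : ℕ) : ℝ) * (y + h) ^ m * 1) y := by
    simpa using ((hasDerivAt_id' y).add_const h).fun_pow (m + 1)
  have h2 : HasDerivAt (fun y : ℝ => y ^ (m + 1)) (((m + 1 : ℕ) : ℝ) * y ^ m * 1) y := by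
    simpa using (hasDerivAt_id' y).fun_pow (m + 1)
  have h3 := (h1.sub h2).const_mul c
  refine h3.congr_deriv ?_
  push_cast
  ring

/-- first derivative test, positive frequency -/
theorem fdt_pos (j : ℕ) (α a b h : ℝ) (hα : 0 < α) (ha : 0 < a) (hab : a ≤ b) (hh : 0 < h) :
    ‖∫ y in a..b, e (α * ((y + h) ^ (j + 2) - y ^ (j + 2)))‖ ≤ 1 / (α * h * a ^ j) := by
  have hpi := Real.pi_gt_three
  have key := Pool.Agent.Helper276.VdC.first_test (ψ := fun y : ℝ => (2 * π * α) * ((y + h) ^ (j + 1 + 1) - y ^ (j + 1 + 1)))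
    (ψ1 := fun y : ℝ => (2 * π * α) * (((j + 1 : ℕ) : ℝ) + 1) * ((y + h) ^ (j + 1) - y ^ (j + 1)))
    (ψ2 := fun y : ℝ => ((2 * π * α) * (((j + 1 : ℕ) : ℝ) + 1)) * ((j : ℝ) + 1) * ((y + h) ^ j - y ^ j))
    (a := a) (b := b) (l := 4 * (α * h * a ^ j)) hab (by positivity)
    (fun y _ => der1 (2 * π * α) h (j + 1) y)
    (fun y _ => der1 ((2 * π * α) * (((j + 1 : ℕ) : ℝ) + 1)) h j y)
    (by fun_prop)
    (by
      intro y hy
      have hy0 : 0 ≤ y := ha.le.trans hy.1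
      have h1 : y ^ j ≤ (y + h) ^ j := pow_le_pow_left₀ hy0 (by linarith) j
      have h2 : 0 ≤ (y + h) ^ j - y ^ j := by linarith
      positivity)
    (by
      intro y hy
      have hy0 : 0 ≤ y := ha.le.trans hy.1
      have h1 := pow_gap j y h hy0 hh.le
      have h2 : a ^ j ≤ y ^ j := pow_le_pow_left₀ ha.le hy.1 j
      have h3 : h * a ^ j ≤ (y + h) ^ (j + 1) - y ^ (j + 1) := (mul_le_mul_of_nonneg_left h2 hh.le).trans h1
      have h4 : 0 ≤ h * a ^ j := by positivity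
      refine le_trans ?_ (le_abs_self _)
      have h5 : 4 * α ≤ (2 * π * α) * (((j + 1 : ℕ) : ℝ) + 1) := by
        push_cast
        have : (0 : ℝ) ≤ j := by positivity
        nlinarith [mul_pos hα (by linarith : (0 : ℝ) < π), mul_nonneg this (mul_pos hα (by linarith : (0 : ℝ) < π)).le]
      calc 4 * (α * h * a ^ j) = (4 * α) * (h * a ^ j) := by ring
        _ ≤ ((2 * π * α) * (((j + 1 : ℕ) : ℝ) + 1)) * ((y + h) ^ (j + 1) - y ^ (j + 1)) :=
          mul_le_mul h5 h3 h4 (by positivity))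
  have h1 : ∀ y : ℝ, e (α * ((y + h) ^ (j + 2) - y ^ (j + 2))) =
      Complex.exp (Complex.I * (((2 * π * α) * ((y + h) ^ (j + 1 + 1) - y ^ (j + 1 + 1)) : ℝ) : ℂ)) := by
    intro y
    unfold Pool.Agent.W928.MW.e
    congr 1
    push_cast
    ring
  simp_rw [h1]
  refine key.trans (le_of_eq ?_)
  field_simp

theorem fdt (j : ℕ) (α a b h : ℝ) (hα : α ≠ 0) (ha : 0 < a) (hab : a ≤ b) (hh : 0 < h) :
    ‖∫ y in a..b, e (α * ((y + h) ^ (j + 2) - y ^ (j + 2)))‖ ≤ 1 / (|α| * h * a ^ j) := by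
  rcases lt_or_gt_of_ne hα with h0 | h0
  · have h1 := fdt_pos j (-α) a b h (by linarith) ha hab hh
    rw [abs_of_neg h0]
    refine le_trans (le_of_eq ?_) h1
    have h2 : ∀ y : ℝ, e ((-α) * ((y + h) ^ (j + 2) - y ^ (j + 2))) =
        (starRingEnd ℂ) (e (α * ((y + h) ^ (j + 2) - y ^ (j + 2)))) := by
      intro y
      rw [← e_neg]
      congr 1
      ring
    simp_rw [h2]
    rw [intervalIntegral.integral_of_le hab, intervalIntegral.integral_of_le hab, integral_conj, RCLike.norm_conj]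
  · rw [abs_of_pos h0]
    exact fdt_pos j α a b h h0 ha hab hh

/-- unfolding -/
theorem unfold1 (G : ℝ → ℂ) (hG : Continuous G) (u : ℝ) (n : ℕ) :
    ∑ i ∈ range n, ∫ t in (-(1 / 2) : ℝ)..(1 / 2), G (u + i - t) = ∫ y in (u - 1 / 2)..(u - 1 / 2 + n), G y := by
  have h1 : ∀ i : ℕ, ∫ t in (-(1 / 2) : ℝ)..(1 / 2), G (u + i - t) =
      ∫ y in (u - 1 / 2 + (i : ℝ))..(u - 1 / 2 + ((i + 1 : ℕ) : ℝ)), G y := by
    intro i
    rw [intervalIntegral.integral_comp_sub_left (fun y => G y) (u + i)]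
    congr 1
    · ring
    · push_cast
      ring
  simp_rw [h1]
  rw [intervalIntegral.sum_integral_adjacent_intervals (a := fun i : ℕ => u - 1 / 2 + (i : ℝ))
    (fun k _ => hG.intervalIntegrable _ _)]
  simp

/-- regrouping of a double sum by differences -/
theorem regroup (N : ℕ) (a : ℕ → ℕ → ℂ) :
    ∑ p ∈ (range N ×ˢ range N).filter (fun p => p.2 < p.1), a p.1 p.2 =
      ∑ h ∈ range N, ∑ i ∈ range (N - 1 - h), a (i + (h + 1)) i := by
  rw [Finset.sum_sigma']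
  symm
  apply Finset.sum_nbij' (fun q : (_ : ℕ) × ℕ => (q.2 + (q.1 + 1), q.2)) (fun p => ⟨p.1 - p.2 - 1, p.2⟩)
  · rintro ⟨h, i⟩ hq
    simp only [Finset.mem_sigma, Finset.mem_range, Finset.mem_filter, Finset.mem_product] at hq ⊢
    omega
  · rintro ⟨x, y⟩ hp
    simp only [Finset.mem_sigma, Finset.mem_range, Finset.mem_filter, Finset.mem_product] at hp ⊢
    omega
  · rintro ⟨h, i⟩ hq
    simp only [Finset.mem_sigma, Finset.mem_range] at hq
    have : i + (h + 1) - i - 1 = h := by omega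
    simp only [this]
  · rintro ⟨x, y⟩ hp
    simp only [Finset.mem_filter, Finset.mem_product, Finset.mem_range] at hp
    simp only [Prod.mk.injEq, and_true]
    omega
  · rintro ⟨h, i⟩ _
    rfl

/-- second moment over the shift -/
noncomputable def Ms (j P C : ℕ) (α : ℝ) : ℝ :=
  ∫ t in (-(1 / 2) : ℝ)..(1 / 2), ‖∑ x ∈ XX P C, e (α * ((x : ℝ) - t) ^ (j + 2))‖ ^ 2

theorem Ms_nonneg (j P C : ℕ) (α : ℝ) : 0 ≤ Ms j P C α :=
  intervalIntegral.integral_nonneg (by norm_num) (fun t _ => by positivity)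

theorem XX_sum (P C : ℕ) (hC : 1 ≤ C) (f : ℝ → ℂ) :
    ∑ x ∈ XX P C, f (x : ℝ) = ∑ i ∈ range (C * P + 1 - P), f ((P : ℝ) + i) := by
  unfold XX
  have hPC : P ≤ C * P := Nat.le_mul_of_pos_left P hC
  symm
  apply Finset.sum_nbij' (fun i : ℕ => (P : ℤ) + i) (fun x : ℤ => (x - P).toNat)
  · intro i hi
    have := Finset.mem_range.mp hi
    rw [Finset.mem_Icc]
    omega
  · intro x hx
    have := Finset.mem_Icc.mp hx
    rw [Finset.mem_range]
    omega
  · intro i hi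
    simp
  · intro x hx
    have := Finset.mem_Icc.mp hx
    omega
  · intro i _
    push_cast
    rfl

end Pool.Agent.Y867.WS
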