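import Pool.Agent.Y867.WS.SaA

/-! # Bounds for the second moment over the shift -/

set_option autoImplicit false

open MeasureTheory Filter Finset
open scoped ENNReal Real

namespace Pool.Agent.Y867.WS

open Pool.Agent.W928.MW (e e_add e_norm e_cont)
open Pool.Agent.Y867.WR (sq_e)
open Pool.Agent.Y867.WC (XX XX_card e_zero)

/-- a Hermitian double sum -/
theorem herm (N : ℕ) (c : ℕ → ℕ → ℂ) (h1 : ∀ i, c i i = 1) (h2 : ∀ i i', c i' i = (starRingEnd ℂ) (c i i')) :
    ‖∑ i ∈ range N, ∑ i' ∈ range N, c i i'‖ ≤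
      N + 2 * ‖∑ p ∈ (range N ×ˢ range N).filter (fun p => p.2 < p.1), c p.1 p.2‖ := by
  rw [← Finset.sum_product']
  rw [← Finset.sum_filter_add_sum_filter_not (range N ×ˢ range N) (fun p => p.2 < p.1)]
  rw [← Finset.sum_filter_add_sum_filter_not ((range N ×ˢ range N).filter (fun p => ¬ p.2 < p.1)) (fun p => p.1 < p.2)]
  have e1 : ∑ p ∈ ((range N ×ˢ range N).filter (fun p => ¬ p.2 < p.1)).filter (fun p => p.1 < p.2), c p.1 p.2 =
      (starRingEnd ℂ) (∑ p ∈ (range N ×ˢ range N).filter (fun p => p.2 < p.1), c p.1 p.2) := by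
    rw [map_sum]
    apply Finset.sum_nbij' Prod.swap Prod.swap
    · intro p hp
      simp only [Finset.mem_filter, Finset.mem_product, Finset.mem_range, Prod.fst_swap, Prod.snd_swap] at hp ⊢
      omega
    · intro p hp
      simp only [Finset.mem_filter, Finset.mem_product, Finset.mem_range, Prod.fst_swap, Prod.snd_swap] at hp ⊢
      omega
    · intro p _
      exact Prod.swap_swap p
    · intro p _
      exact Prod.swap_swap p
    · intro p _
      exact h2 _ _
  have e2 : ∑ p ∈ ((range N ×ˢ range N).filter (fun p => ¬ p.2 < p.1)).filter (fun p => ¬ p.1 < p.2), c p.1 p.2 = (N : ℂ) := by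
    have e3 : ∀ p ∈ ((range N ×ˢ range N).filter (fun p => ¬ p.2 < p.1)).filter (fun p => ¬ p.1 < p.2), c p.1 p.2 = 1 := by
      intro p hp
      simp only [Finset.mem_filter, Finset.mem_product, Finset.mem_range] at hp
      have : p.1 = p.2 := by omega
      rw [this]
      exact h1 _
    rw [Finset.sum_congr rfl e3, Finset.sum_const, nsmul_eq_mul, mul_one]
    congr 1
    have e4 : (((range N ×ˢ range N).filter (fun p => ¬ p.2 < p.1)).filter (fun p => ¬ p.1 < p.2)).card = (range N).card := by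
      apply Finset.card_nbij' (fun p => p.1) (fun i => (i, i))
      · intro p hp
        simp only [Finset.mem_coe, Finset.mem_filter, Finset.mem_product, Finset.mem_range] at hp ⊢
        omega
      · intro i hi
        simp only [Finset.mem_coe, Finset.mem_filter, Finset.mem_product, Finset.mem_range] at hi ⊢
        omega
      · intro p hp
        simp only [Finset.mem_coe, Finset.mem_filter, Finset.mem_product, Finset.mem_range] at hp
        ext <;> simp
        omega
      · intro i _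
        rfl
    rw [e4, Finset.card_range]
  rw [e1, e2]
  refine (norm_add_le _ _).trans ?_
  refine (add_le_add_right (norm_add_le _ _) _).trans ?_
  rw [RCLike.norm_conj, Complex.norm_natCast]
  linarith

theorem Ms_le1 (j P C : ℕ) (α : ℝ) (hP : 1 ≤ P) (hC : 1 ≤ C) (hα : α ≠ 0) :
    Ms j P C α ≤ C * P + 2 * (1 + Real.log (C * P)) * (2 ^ j / (|α| * (P : ℝ) ^ j)) := by
  have hP' : (1 : ℝ) ≤ P := by exact_mod_cast hP
  have hα' : 0 < |α| := abs_pos.mpr hα
  have hPC : P ≤ C * P := Nat.le_mul_of_pos_left P hC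
  set N := C * P + 1 - P with hN
  have hN1 : 1 ≤ N := by omega
  have hNC : N ≤ C * P := by omega
  have hNC' : (N : ℝ) ≤ C * P := by exact_mod_cast hNC
  set c : ℕ → ℕ → ℂ := fun i i' => ∫ t in (-(1 / 2) : ℝ)..(1 / 2),
    e (α * ((P : ℝ) + i - t) ^ (j + 2) - α * ((P : ℝ) + i' - t) ^ (j + 2)) with hc
  have hcont : ∀ i i' : ℕ, Continuous (fun t : ℝ => e (α * ((P : ℝ) + i - t) ^ (j + 2) - α * ((P : ℝ) + i' - t) ^ (j + 2))) :=
    fun i i' => e_cont.comp (by fun_prop)
  have h0 := Ms_nonneg j P C α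
  have h1 : ((Ms j P C α : ℝ) : ℂ) = ∑ i ∈ range N, ∑ i' ∈ range N, c i i' := by
    unfold Ms
    rw [← intervalIntegral.integral_ofReal]
    have h2 : ∀ t : ℝ, ((‖∑ x ∈ XX P C, e (α * ((x : ℝ) - t) ^ (j + 2))‖ ^ 2 : ℝ) : ℂ) =
        ∑ i ∈ range N, ∑ i' ∈ range N, e (α * ((P : ℝ) + i - t) ^ (j + 2) - α * ((P : ℝ) + i' - t) ^ (j + 2)) := by
      intro t
      rw [XX_sum P C hC (fun x => e (α * (x - t) ^ (j + 2)))]
      exact sq_e (range N) (fun i : ℕ => α * ((P : ℝ) + i - t) ^ (j + 2))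
    simp_rw [h2]
    rw [intervalIntegral.integral_finsetSum (fun i _ => (continuous_finsetSum _ (fun i' _ => hcont i i')).intervalIntegrable _ _)]
    apply Finset.sum_congr rfl
    intro i _
    rw [intervalIntegral.integral_finsetSum (fun i' _ => (hcont i i').intervalIntegrable _ _)]
  have hc1 : ∀ i, c i i = 1 := by
    intro i
    simp only [hc]
    simp_rw [sub_self, e_zero]
    rw [intervalIntegral.integral_const]
    norm_num
  have hc2 : ∀ i i', c i' i = (starRingEnd ℂ) (c i i') := by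
    intro i i'
    simp only [hc]
    rw [intervalIntegral.integral_of_le (by norm_num), intervalIntegral.integral_of_le (by norm_num), ← integral_conj]
    congr 1
    funext t
    rw [← e_neg]
    congr 1
    ring
  have h3 := herm N c hc1 hc2
  rw [← h1, Complex.norm_real, Real.norm_of_nonneg h0] at h3
  refine h3.trans (add_le_add hNC' ?_)
  rw [regroup, mul_assoc]
  apply mul_le_mul_of_nonneg_left _ (by norm_num)
  have h4 : ∀ h ∈ range N, ‖∑ i ∈ range (N - 1 - h), c (i + (h + 1)) i‖ ≤ 2 ^ j / (|α| * (P : ℝ) ^ j) * (1 / ((h : ℝ) + 1)) := by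
    intro h _
    have h5 := unfold1 (fun y => e (α * ((y + ((h : ℝ) + 1)) ^ (j + 2) - y ^ (j + 2)))) (e_cont.comp (by fun_prop)) P (N - 1 - h)
    have h6 : ∑ i ∈ range (N - 1 - h), c (i + (h + 1)) i =
        ∑ i ∈ range (N - 1 - h), ∫ t in (-(1 / 2) : ℝ)..(1 / 2),
          e (α * (((P : ℝ) + i - t + ((h : ℝ) + 1)) ^ (j + 2) - ((P : ℝ) + i - t) ^ (j + 2))) := by
      apply Finset.sum_congr rfl
      intro i _
      simp only [hc]
      congr 1
      funext t
      congr 1
      push_cast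
      ring
    rw [h6, h5]
    refine (fdt j α _ _ _ hα (by linarith) (by
      have : (0 : ℝ) ≤ ((N - 1 - h : ℕ) : ℝ) := by positivity
      linarith) (by positivity)).trans ?_
    have h7 : (P : ℝ) ^ j ≤ 2 ^ j * ((P : ℝ) - 1 / 2) ^ j := by
      rw [← mul_pow]
      exact pow_le_pow_left₀ (by positivity) (by linarith) j
    have h8 : (0 : ℝ) < (P : ℝ) - 1 / 2 := by linarith
    rw [div_mul_div_comm, mul_one, div_le_div_iff₀ (by positivity) (by positivity), one_mul]
    calc |α| * (P : ℝ) ^ j * ((h : ℝ) + 1) ≤ |α| * (2 ^ j * ((P : ℝ) - 1 / 2) ^ j) * ((h : ℝ) + 1) := by gcongr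
      _ = _ := by ring
  refine (norm_sum_le _ _).trans ((Finset.sum_le_sum h4).trans ?_)
  rw [← Finset.mul_sum, mul_comm]
  apply mul_le_mul_of_nonneg_right _ (by positivity)
  have h5 : ∑ h ∈ range N, 1 / ((h : ℝ) + 1) ≤ 1 + Real.log N := by
    have h7 := harmonic_le_one_add_log N
    unfold harmonic at h7
    push_cast at h7
    simpa [one_div] using h7
  refine h5.trans ?_
  have h6 : Real.log N ≤ Real.log (C * P) := Real.log_le_log (by exact_mod_cast hN1) hNC'
  linarith

theorem Ts_cont (j P C : ℕ) : Continuous (fun p : ℝ × ℝ => ‖∑ x ∈ XX P C, e (p.1 * ((x : ℝ) - p.2) ^ (j + 2))‖ ^ 2) := by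
  apply Continuous.pow
  apply Continuous.norm
  apply continuous_finsetSum
  intro x _
  exact e_cont.comp (by fun_prop)

theorem Ts_cont' (j P C : ℕ) (α : ℝ) : Continuous (fun t : ℝ => ‖∑ x ∈ XX P C, e (α * ((x : ℝ) - t) ^ (j + 2))‖ ^ 2) := by
  apply Continuous.pow
  apply Continuous.norm
  apply continuous_finsetSum
  intro x _
  exact e_cont.comp (by fun_prop)

theorem Ms_le2 (j P C : ℕ) (α : ℝ) (hP : 1 ≤ P) : Ms j P C α ≤ (C * P : ℝ) ^ 2 := by
  have h1 : ∀ t : ℝ, ‖∑ x ∈ XX P C, e (α * ((x : ℝ) - t) ^ (j + 2))‖ ^ 2 ≤ (C * P : ℝ) ^ 2 := by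
    intro t
    have h0 : ‖∑ x ∈ XX P C, e (α * ((x : ℝ) - t) ^ (j + 2))‖ ≤ (C * P : ℝ) := by
      refine (norm_sum_le _ _).trans ?_
      rw [Finset.sum_congr rfl (fun x _ => e_norm _), Finset.sum_const, nsmul_eq_mul, mul_one]
      exact XX_card P C hP
    exact pow_le_pow_left₀ (norm_nonneg _) h0 2
  have h2 : ‖∫ t in (-(1 / 2) : ℝ)..(1 / 2), ‖∑ x ∈ XX P C, e (α * ((x : ℝ) - t) ^ (j + 2))‖ ^ 2‖ ≤
      (C * P : ℝ) ^ 2 * |1 / 2 - -(1 / 2)| := by
    apply intervalIntegral.norm_integral_le_of_norm_le_const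
    intro t _
    rw [Real.norm_eq_abs, abs_of_nonneg (by positivity)]
    exact h1 t
  have h3 : Ms j P C α ≤ (C * P : ℝ) ^ 2 * |1 / 2 - -(1 / 2)| := (le_abs_self _).trans h2
  refine h3.trans (le_of_eq ?_)
  norm_num

end Pool.Agent.Y867.WS
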