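import Pool.Agent.Y867.WS.SaB

/-! # The mean square over the cube of shifts -/

set_option autoImplicit false

open MeasureTheory Filter Finset
open scoped ENNReal Real

namespace Pool.Agent.Y867.WS

open Pool.Agent.W928.MW (e e_add e_norm e_cont)
open Pool.Agent.Y867.WR (sq_e QB QB_meas mem_QB)
open Pool.Agent.Y867.WC (XX XX_card e_zero e_sum BX gq gd GH GH_nonneg GH_cont GH_le1 GH_le2 plan GHS_int box_prod
  ex_int)

/-- the form -/
noncomputable def Fs (j n : ℕ) (μ : Fin n → ℝ) (x : Fin n → ℤ) : ℝ := ∑ i, ((x i : ℝ) - μ i) ^ (j + 2)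

/-- mean square of the difference of the smoothed counts -/
noncomputable def Js (j n P C : ℕ) (q Q : ℝ) (μ : Fin n → ℝ) : ℝ :=
  ∫ τ, (∑ x ∈ BX n P C, gd q Q (Fs j n μ x - τ)) ^ 2

theorem Ss_prod (j n P C : ℕ) (μ : Fin n → ℝ) (α : ℝ) :
    ∑ x ∈ BX n P C, e (α * Fs j n μ x) = ∏ i, ∑ x ∈ XX P C, e (α * ((x : ℝ) - μ i) ^ (j + 2)) := by
  unfold BX
  rw [Finset.prod_univ_sum]
  apply Finset.sum_congr rfl
  intro x _
  unfold Fs
  rw [Finset.mul_sum, e_sum]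

theorem msq1s (j n P C : ℕ) (q Q : ℝ) (hq : 0 < q) (hQ : 0 < Q) :
    ∫⁻ μ in QB n (1 / 2), ENNReal.ofReal (Js j n P C q Q μ) = ∫⁻ α : ℝ, ENNReal.ofReal (GH q Q α * (Ms j P C α) ^ n) := by
  have h1 : ∀ μ : Fin n → ℝ, ENNReal.ofReal (Js j n P C q Q μ) =
      ∫⁻ α : ℝ, ENNReal.ofReal (GH q Q α * ∏ i, ‖∑ x ∈ XX P C, e (α * ((x : ℝ) - μ i) ^ (j + 2))‖ ^ 2) := by
    intro μ
    unfold Js
    rw [(plan (BX n P C) (Fs j n μ) q Q hq hQ).2,
      ofReal_integral_eq_lintegral_ofReal (GHS_int (BX n P C) (Fs j n μ) q Q hq hQ)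
        (Eventually.of_forall fun α => mul_nonneg (GH_nonneg _ _ _) (by positivity))]
    apply lintegral_congr
    intro α
    rw [Ss_prod, norm_prod, Finset.prod_pow]
  simp_rw [h1]
  have hc : Continuous (fun p : (Fin n → ℝ) × ℝ => GH q Q p.2 *
      ∏ i, ‖∑ x ∈ XX P C, e (p.2 * ((x : ℝ) - p.1 i) ^ (j + 2))‖ ^ 2) := by
    apply ((GH_cont q Q).comp continuous_snd).mul
    apply continuous_finsetProd
    intro i _
    apply Continuous.pow
    apply Continuous.norm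
    apply continuous_finsetSum
    intro x _
    exact e_cont.comp (by fun_prop)
  rw [lintegral_lintegral_swap (hc.measurable.ennreal_ofReal.aemeasurable)]
  apply lintegral_congr
  intro α
  have hcα := Ts_cont' j P C α
  have h2 := box_prod n (1 / 2) (by norm_num) _ hcα (fun t => by positivity)
  simp_rw [ENNReal.ofReal_mul (GH_nonneg q Q α)]
  rw [lintegral_const_mul' _ _ ENNReal.ofReal_ne_top, h2]
  rfl

theorem alg1s (j : ℕ) (M K P w : ℝ) (hM0 : 0 ≤ M) (hK : 0 ≤ K) (hw : 0 < w) (h1 : M ≤ K * (P / w))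
    (h2 : M ≤ K * P ^ 2) : M ^ (j + 4) ≤ K ^ (j + 4) * (P ^ (2 * j + 4) / w ^ 4) := by
  have h3 : M ^ (j + 4) = M ^ j * M ^ 4 := pow_add M j 4
  have h4 : (K * P ^ 2) ^ j * (K * (P / w)) ^ 4 = K ^ (j + 4) * (P ^ (2 * j + 4) / w ^ 4) := by
    rw [mul_pow K (P ^ 2) j, ← pow_mul, mul_pow K (P / w) 4, div_pow, pow_add K j 4, pow_add P (2 * j) 4]
    ring
  rw [h3, ← h4]
  have h5 : 0 ≤ K * P ^ 2 := by positivity
  exact mul_le_mul (pow_le_pow_left₀ hM0 h2 _) (pow_le_pow_left₀ hM0 h1 _) (pow_nonneg hM0 _) (pow_nonneg h5 _)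

theorem alg2s (c D R w : ℝ) (hw : 0 < w) : (c * w ^ 4) * (D * (R / w ^ 4)) = D * (c * R) := by
  field_simp

theorem pts (j P C : ℕ) (CH q : ℝ) (hP : 1 ≤ P) (hC : 1 ≤ C) (hCH : 1 ≤ CH) (hq : 0 < q) (hq1 : q ≤ 1)
    (α : ℝ) (hα : α ≠ 0) :
    GH q ((CH * (P : ℝ) ^ (j + 1)) ^ 2) α * (Ms j P C α) ^ (j + 4) ≤
      (2 ^ (j + 2) * C ^ 2 * (1 + Real.log (C * P))) ^ (j + 4) * ((P : ℝ) ^ (j + 4) * Real.exp (-(π * (q + q) * α ^ 2)) +
        (if |α| * (P : ℝ) ^ (j + 1) ≤ 1 then π ^ 2 * CH ^ 4 * (P : ℝ) ^ (2 * j + 4) else 0)) := by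
  have hP' : (1 : ℝ) ≤ P := by exact_mod_cast hP
  have hC' : (1 : ℝ) ≤ C := by exact_mod_cast hC
  have hl : 0 ≤ Real.log (C * P) := Real.log_nonneg (one_le_mul_of_one_le_of_one_le hC' hP')
  set l := 1 + Real.log (C * P) with hl_def
  have hl1 : 1 ≤ l := by linarith
  have hα' : 0 < |α| := abs_pos.mpr hα
  have hM0 := Ms_nonneg j P C α
  have hM1 := Ms_le1 j P C α hP hC hα
  have hM2 := Ms_le2 j P C α hP
  have hPj : 1 ≤ (P : ℝ) ^ (j + 1) := one_le_pow₀ hP'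
  set w := |α| * (P : ℝ) ^ (j + 1) with hw
  have hw0 : 0 < w := by positivity
  have hqQ : q ≤ (CH * (P : ℝ) ^ (j + 1)) ^ 2 := by
    refine hq1.trans ?_
    exact one_le_pow₀ (one_le_mul_of_one_le_of_one_le hCH hPj)
  have hpi := Real.pi_pos
  have hCC : (C : ℝ) ≤ (C : ℝ) ^ 2 := by
    rw [sq]
    exact le_mul_of_one_le_left (by linarith) hC'
  have hC2 : (1 : ℝ) ≤ (C : ℝ) ^ 2 := hC'.trans hCC
  have h2j : (1 : ℝ) ≤ 2 ^ j := one_le_pow₀ (by norm_num)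
  have hwP : 2 ^ j / (|α| * (P : ℝ) ^ j) = 2 ^ j * (P / w) := by
    rw [hw]
    field_simp
    ring
  rw [← hl_def, hwP] at hM1
  set K : ℝ := 2 ^ (j + 2) * C ^ 2 * l with hKdef
  have hK : 0 ≤ K := by positivity
  have hKa : (C : ℝ) + 2 * l * 2 ^ j ≤ K := by
    have h1 : (C : ℝ) ≤ 2 * (2 ^ j * C ^ 2 * l) := by
      have h3 : (1 : ℝ) ≤ 2 ^ j * l := one_le_mul_of_one_le_of_one_le h2j hl1
      have h4 : (C : ℝ) ^ 2 * 1 ≤ (C : ℝ) ^ 2 * (2 ^ j * l) := mul_le_mul_of_nonneg_left h3 (by positivity)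
      nlinarith
    have h2 : 2 * l * 2 ^ j ≤ 2 * (2 ^ j * C ^ 2 * l) := by
      have h3 : (2 * l * 2 ^ j) * 1 ≤ (2 * l * 2 ^ j) * (C : ℝ) ^ 2 := mul_le_mul_of_nonneg_left hC2 (by positivity)
      linarith
    have h3 : K = 2 * (2 ^ j * C ^ 2 * l) + 2 * (2 ^ j * C ^ 2 * l) := by
      rw [hKdef, pow_add]
      ring
    linarith
  have hKb : (C : ℝ) ^ 2 ≤ K := by
    have h3 : (1 : ℝ) ≤ 2 ^ (j + 2) * l := one_le_mul_of_one_le_of_one_le (one_le_pow₀ (by norm_num)) hl1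
    have h4 : (C : ℝ) ^ 2 * 1 ≤ (C : ℝ) ^ 2 * (2 ^ (j + 2) * l) := mul_le_mul_of_nonneg_left h3 (by positivity)
    rw [hKdef]
    linarith
  by_cases h : w ≤ 1
  · rw [if_pos h]
    have h1 : Ms j P C α ≤ K * (P / w) := by
      refine hM1.trans ?_
      have h2 : (C : ℝ) * P ≤ C * (P / w) := by
        apply mul_le_mul_of_nonneg_left _ (by positivity)
        rw [le_div_iff₀ hw0]
        exact mul_le_of_le_one_right (by positivity) h
      calc (C : ℝ) * P + 2 * l * (2 ^ j * (P / w)) ≤ C * (P / w) + 2 * l * (2 ^ j * (P / w)) := by linarith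
        _ = (C + 2 * l * 2 ^ j) * (P / w) := by ring
        _ ≤ K * (P / w) := mul_le_mul_of_nonneg_right hKa (by positivity)
    have h2 : Ms j P C α ≤ K * (P : ℝ) ^ 2 := by
      refine hM2.trans ?_
      rw [mul_pow]
      exact mul_le_mul_of_nonneg_right hKb (by positivity)
    have h3 := alg1s j (Ms j P C α) K P w hM0 hK hw0 h1 h2
    have h4 : GH q ((CH * (P : ℝ) ^ (j + 1)) ^ 2) α ≤ π ^ 2 * CH ^ 4 * w ^ 4 := by
      refine (GH_le2 _ _ α hq.le hqQ).trans (le_of_eq ?_)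
      have h5 : α ^ 2 = |α| ^ 2 := (sq_abs α).symm
      rw [h5, hw]
      ring
    have h5 : GH q ((CH * (P : ℝ) ^ (j + 1)) ^ 2) α * (Ms j P C α) ^ (j + 4) ≤
        (π ^ 2 * CH ^ 4 * w ^ 4) * (K ^ (j + 4) * ((P : ℝ) ^ (2 * j + 4) / w ^ 4)) :=
      mul_le_mul h4 h3 (pow_nonneg hM0 _) (by positivity)
    have h6 := alg2s (π ^ 2 * CH ^ 4) (K ^ (j + 4)) ((P : ℝ) ^ (2 * j + 4)) w hw0
    rw [h6] at h5
    refine h5.trans ?_
    apply mul_le_mul_of_nonneg_left _ (pow_nonneg hK _)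
    have h7 : 0 ≤ (P : ℝ) ^ (j + 4) * Real.exp (-(π * (q + q) * α ^ 2)) := by positivity
    linarith
  · rw [if_neg h, add_zero]
    push Not at h
    have h1 : Ms j P C α ≤ K * P := by
      refine hM1.trans ?_
      have h2 : (P : ℝ) / w ≤ P := div_le_self (by linarith) h.le
      have h3 : 2 * l * (2 ^ j * (P / w)) ≤ 2 * l * (2 ^ j * P) := by gcongr
      calc (C : ℝ) * P + 2 * l * (2 ^ j * (P / w)) ≤ C * P + 2 * l * (2 ^ j * P) := by linarith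
        _ = (C + 2 * l * 2 ^ j) * P := by ring
        _ ≤ K * P := mul_le_mul_of_nonneg_right hKa (by positivity)
    have h2 : (Ms j P C α) ^ (j + 4) ≤ K ^ (j + 4) * (P : ℝ) ^ (j + 4) := by
      rw [← mul_pow]
      exact pow_le_pow_left₀ hM0 h1 _
    calc GH q ((CH * (P : ℝ) ^ (j + 1)) ^ 2) α * (Ms j P C α) ^ (j + 4) ≤
          Real.exp (-(π * (q + q) * α ^ 2)) * (K ^ (j + 4) * (P : ℝ) ^ (j + 4)) :=
          mul_le_mul (GH_le1 _ _ α hqQ) h2 (pow_nonneg hM0 _) (Real.exp_pos _).le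
      _ = _ := by ring

/-- the mean square bound -/
theorem msq2s (j P C : ℕ) (CH q : ℝ) (hP : 1 ≤ P) (hC : 1 ≤ C) (hCH : 1 ≤ CH) (hq : 0 < q) (hq1 : q ≤ 1) :
    ∫⁻ μ in QB (j + 4) (1 / 2), ENNReal.ofReal (Js j (j + 4) P C q ((CH * (P : ℝ) ^ (j + 1)) ^ 2) μ) ≤
      ENNReal.ofReal ((2 ^ (j + 2) * C ^ 2 * (1 + Real.log (C * P))) ^ (j + 4) * (1 + 2 * π ^ 2 * CH ^ 4) *
        ((P : ℝ) ^ (j + 4) / √q)) := by
  have hP' : (1 : ℝ) ≤ P := by exact_mod_cast hP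
  have hC' : (1 : ℝ) ≤ C := by exact_mod_cast hC
  have hl : 0 ≤ Real.log (C * P) := Real.log_nonneg (one_le_mul_of_one_le_of_one_le hC' hP')
  have hpi := Real.pi_pos
  have hPj : 1 ≤ (P : ℝ) ^ (j + 1) := one_le_pow₀ hP'
  rw [msq1s j (j + 4) P C q _ hq (by positivity)]
  set D := (2 ^ (j + 2) * C ^ 2 * (1 + Real.log (C * P))) ^ (j + 4) with hD
  have hD0 : 0 ≤ D := by positivity
  set g : ℝ → ℝ := fun α => D * ((P : ℝ) ^ (j + 4) * Real.exp (-(π * (q + q) * α ^ 2)) +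
        (if |α| * (P : ℝ) ^ (j + 1) ≤ 1 then π ^ 2 * CH ^ 4 * (P : ℝ) ^ (2 * j + 4) else 0)) with hg
  have h0 : ∀ᵐ α : ℝ, α ≠ 0 := by
    rw [ae_iff]
    simp
  have h1 : ∫⁻ α : ℝ, ENNReal.ofReal (GH q ((CH * (P : ℝ) ^ (j + 1)) ^ 2) α * (Ms j P C α) ^ (j + 4)) ≤
      ∫⁻ α : ℝ, ENNReal.ofReal (g α) := by
    apply lintegral_mono_ae
    filter_upwards [h0] with α hα
    exact ENNReal.ofReal_le_ofReal (pts j P C CH q hP hC hCH hq hq1 α hα)
  refine h1.trans ?_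
  set r : ℝ := 1 / (P : ℝ) ^ (j + 1) with hr
  have hr0 : 0 < r := by positivity
  have hind : ∀ α : ℝ, (if |α| * (P : ℝ) ^ (j + 1) ≤ 1 then π ^ 2 * CH ^ 4 * (P : ℝ) ^ (2 * j + 4) else 0) =
      (Set.Icc (-r) r).indicator (fun _ => π ^ 2 * CH ^ 4 * (P : ℝ) ^ (2 * j + 4)) α := by
    intro α
    rw [Set.indicator_apply]
    apply if_congr _ rfl rfl
    rw [Set.mem_Icc, ← abs_le, hr, le_div_iff₀ (by positivity)]
  have i1 : Integrable (fun α : ℝ => (P : ℝ) ^ (j + 4) * Real.exp (-(π * (q + q) * α ^ 2))) :=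
    (ex_int (q + q) (by positivity)).const_mul _
  have i2 : Integrable ((Set.Icc (-r) r).indicator (fun _ : ℝ => π ^ 2 * CH ^ 4 * (P : ℝ) ^ (2 * j + 4))) := by
    rw [integrable_indicator_iff measurableSet_Icc]
    exact integrableOn_const (by simp)
  have i3 : Integrable g := by
    have h2 := (i1.add i2).const_mul D
    refine h2.congr (Eventually.of_forall fun α => ?_)
    simp only [Pi.add_apply, hg, hind]
  have hg0 : ∀ α, 0 ≤ g α := by
    intro α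
    simp only [hg]
    split_ifs <;> positivity
  rw [← ofReal_integral_eq_lintegral_ofReal i3 (Eventually.of_forall hg0)]
  apply ENNReal.ofReal_le_ofReal
  have h2 : ∫ α, g α = D * ((P : ℝ) ^ (j + 4) * √(1 / (q + q)) + 2 * r * (π ^ 2 * CH ^ 4 * (P : ℝ) ^ (2 * j + 4))) := by
    simp only [hg]
    rw [integral_const_mul]
    simp_rw [hind]
    rw [integral_add i1 i2, integral_const_mul, integral_indicator measurableSet_Icc, setIntegral_const]
    congr 2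
    · congr 1
      have h3 : ∫ α : ℝ, Real.exp (-(π * (q + q) * α ^ 2)) = ∫ α : ℝ, Real.exp (-(π * (q + q)) * α ^ 2) := by
        congr 1
        funext α
        congr 1
        ring
      rw [h3, integral_gaussian]
      congr 1
      field_simp
    · rw [smul_eq_mul, measureReal_def, Real.volume_Icc, ENNReal.toReal_ofReal (by linarith)]
      ring
  rw [h2]
  have h3 : √(1 / (q + q)) ≤ 1 / √q := by
    rw [Real.sqrt_div zero_le_one, Real.sqrt_one]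
    apply one_div_le_one_div_of_le (Real.sqrt_pos.mpr hq)
    exact Real.sqrt_le_sqrt (by linarith)
  have h4 : r * (P : ℝ) ^ (2 * j + 4) = (P : ℝ) ^ (j + 3) := by
    rw [hr, show 2 * j + 4 = (j + 1) + (j + 3) by ring, pow_add (P : ℝ) (j + 1) (j + 3), one_div, ← mul_assoc,
      inv_mul_cancel₀ (by positivity), one_mul]
  have h5 : (P : ℝ) ^ (j + 3) ≤ (P : ℝ) ^ (j + 4) / √q := by
    have h6 : √q ≤ 1 := Real.sqrt_le_one.mpr hq1
    calc (P : ℝ) ^ (j + 3) ≤ (P : ℝ) ^ (j + 4) := pow_le_pow_right₀ hP' (by omega)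
      _ ≤ (P : ℝ) ^ (j + 4) / √q := by
          rw [le_div_iff₀ (Real.sqrt_pos.mpr hq)]
          exact mul_le_of_le_one_right (by positivity) h6
  rw [mul_assoc D]
  apply mul_le_mul_of_nonneg_left _ hD0
  calc (P : ℝ) ^ (j + 4) * √(1 / (q + q)) + 2 * r * (π ^ 2 * CH ^ 4 * (P : ℝ) ^ (2 * j + 4))
      = (P : ℝ) ^ (j + 4) * √(1 / (q + q)) + 2 * π ^ 2 * CH ^ 4 * (r * (P : ℝ) ^ (2 * j + 4)) := by ring
    _ ≤ (P : ℝ) ^ (j + 4) * (1 / √q) + 2 * π ^ 2 * CH ^ 4 * ((P : ℝ) ^ (j + 4) / √q) := by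
        rw [h4]
        exact add_le_add (mul_le_mul_of_nonneg_left h3 (by positivity)) (mul_le_mul_of_nonneg_left h5 (by positivity))
    _ = _ := by ring

end Pool.Agent.Y867.WS
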