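import Pool.Agent.Y867.WS.SaC

/-! # The coarse count -/

set_option autoImplicit false

open MeasureTheory Filter Finset
open scoped ENNReal Real

namespace Pool.Agent.Y867.WS

open Pool.Agent.Y867.WR (QB QB_meas mem_QB)
open Pool.Agent.Y867.WC (XX XX_card BX pow_succ_sub root)

/-- the coarse count for the unshifted form -/
theorem coarse1 (j n P C : ℕ) (τ : ℝ) (hP : 1 ≤ P) (hC : 2 ≤ C)
    (h3 : ((n * 2 ^ (j + 2) + 1 : ℕ) : ℝ) * (P : ℝ) ^ (j + 2) ≤ τ) (h4 : τ ≤ (C : ℝ) * (P : ℝ) ^ (j + 2)) :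
    (P : ℝ) ^ n ≤ (((BX (n + 1) P C).filter (fun x => |∑ i, (x i : ℝ) ^ (j + 2) - τ| ≤
      (((j : ℝ) + 2) * (C : ℝ) ^ (j + 1)) * (P : ℝ) ^ (j + 1))).card : ℝ) := by
  classical
  have hP' : (1 : ℝ) ≤ P := by exact_mod_cast hP
  -- the choice of the first variable
  have key : ∀ y ∈ Fintype.piFinset (fun _ : Fin n => Finset.Icc (P : ℤ) ((2 * P : ℕ) : ℤ)),
      ∃ x : ℤ, x ∈ XX P C ∧ |∑ i, ((Fin.cons x y : Fin (n + 1) → ℤ) i : ℝ) ^ (j + 2) - τ| ≤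
        (((j : ℝ) + 2) * (C : ℝ) ^ (j + 1)) * (P : ℝ) ^ (j + 1) := by
    intro y hy
    rw [Fintype.mem_piFinset] at hy
    set S := ∑ i : Fin n, (y i : ℝ) ^ (j + 2) with hS
    have hy1 : ∀ i, (P : ℝ) ≤ y i ∧ (y i : ℝ) ≤ 2 * P := by
      intro i
      have h5 := Finset.mem_Icc.mp (hy i)
      constructor
      · exact_mod_cast h5.1
      · have h6 : (y i : ℝ) ≤ (((2 * P : ℕ) : ℤ) : ℝ) := by exact_mod_cast h5.2
        push_cast at h6
        exact h6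
    have hS0 : 0 ≤ S := Finset.sum_nonneg fun i _ => by
      have := (hy1 i).1
      have h7 : (0 : ℝ) ≤ y i := by linarith
      positivity
    have hS1 : S ≤ (n : ℝ) * 2 ^ (j + 2) * (P : ℝ) ^ (j + 2) := by
      have h5 : ∀ i : Fin n, (y i : ℝ) ^ (j + 2) ≤ 2 ^ (j + 2) * (P : ℝ) ^ (j + 2) := by
        intro i
        rw [← mul_pow]
        exact pow_le_pow_left₀ (by linarith [(hy1 i).1]) (hy1 i).2 _
      refine (Finset.sum_le_sum fun i _ => h5 i).trans ?_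
      rw [Finset.sum_const, Finset.card_univ, Fintype.card_fin, nsmul_eq_mul]
      apply le_of_eq
      ring
    have hlow : (1 : ℝ) * (P : ℝ) ^ (j + 2) ≤ τ - S := by
      push_cast at h3
      have h6 : ((n : ℝ) * 2 ^ (j + 2) + 1) * (P : ℝ) ^ (j + 2) =
        (n : ℝ) * 2 ^ (j + 2) * (P : ℝ) ^ (j + 2) + 1 * (P : ℝ) ^ (j + 2) := by ring
      rw [h6] at h3
      linarith
    have hup : τ - S ≤ (C : ℝ) * (P : ℝ) ^ (j + 2) := by linarith
    obtain ⟨x, hx, hx'⟩ := root j P C 1 1 (τ - S) C hP (by omega) one_pos le_rfl hlow hup (by rw [one_mul])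
    refine ⟨x, hx, ?_⟩
    have h5 : ∑ i, ((Fin.cons x y : Fin (n + 1) → ℤ) i : ℝ) ^ (j + 2) = 1 * (x : ℝ) ^ (j + 2) + S := by
      rw [Fin.sum_univ_succ]
      simp only [Fin.cons_zero, Fin.cons_succ]
      rw [hS, one_mul]
    rw [h5]
    have h6 : 1 * (x : ℝ) ^ (j + 2) + S - τ = 1 * (x : ℝ) ^ (j + 2) - (τ - S) := by ring
    rw [h6]
    refine hx'.trans (le_of_eq ?_)
    ring
  choose! f hf using key
  have hcard : (Fintype.piFinset (fun _ : Fin n => Finset.Icc (P : ℤ) ((2 * P : ℕ) : ℤ))).card ≤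
      ((BX (n + 1) P C).filter (fun x => |∑ i, (x i : ℝ) ^ (j + 2) - τ| ≤
        (((j : ℝ) + 2) * (C : ℝ) ^ (j + 1)) * (P : ℝ) ^ (j + 1))).card := by
    apply Finset.card_le_card_of_injOn (fun y : Fin n → ℤ => (Fin.cons (f y) y : Fin (n + 1) → ℤ))
    · intro y hy
      have hy' : y ∈ Fintype.piFinset (fun _ : Fin n => Finset.Icc (P : ℤ) ((2 * P : ℕ) : ℤ)) := hy
      have h5 := hf y hy'
      simp only [Finset.coe_filter, Set.mem_ofPred_eq]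
      refine ⟨?_, h5.2⟩
      unfold BX
      rw [Fintype.mem_piFinset]
      intro i
      refine Fin.cases ?_ ?_ i
      · rw [Fin.cons_zero]
        exact h5.1
      · intro i'
        rw [Fin.cons_succ]
        rw [Fintype.mem_piFinset] at hy'
        have h6 := Finset.mem_Icc.mp (hy' i')
        unfold XX
        rw [Finset.mem_Icc]
        refine ⟨h6.1, h6.2.trans ?_⟩
        exact_mod_cast Nat.mul_le_mul_right P hC
    · intro y _ y' _ h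
      exact (Fin.cons_inj.mp h).2
  have h5 : P ^ n ≤ (Fintype.piFinset (fun _ : Fin n => Finset.Icc (P : ℤ) ((2 * P : ℕ) : ℤ))).card := by
    rw [Fintype.card_piFinset_const, Int.card_Icc]
    apply Nat.pow_le_pow_left
    push_cast
    omega
  exact_mod_cast h5.trans hcard

/-- the effect of the shifts -/
theorem shift_close (j P C : ℕ) (x : ℤ) (t : ℝ) (hP : 1 ≤ P) (hC : 1 ≤ C) (hx : x ∈ XX P C) (ht : |t| ≤ 1 / 2) :
    |((x : ℝ) - t) ^ (j + 2) - (x : ℝ) ^ (j + 2)| ≤ ((j : ℝ) + 2) * (2 * C) ^ (j + 1) * (P : ℝ) ^ (j + 1) := by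
  unfold XX at hx
  have hx' := Finset.mem_Icc.mp hx
  have hP' : (1 : ℝ) ≤ P := by exact_mod_cast hP
  have hC' : (1 : ℝ) ≤ C := by exact_mod_cast hC
  have hx1 : (P : ℝ) ≤ x := by exact_mod_cast hx'.1
  have hx2 : (x : ℝ) ≤ C * P := by
    have : (x : ℝ) ≤ (((C * P : ℕ) : ℤ) : ℝ) := by exact_mod_cast hx'.2
    push_cast at this
    exact this
  have ht' := abs_le.mp ht
  have h0 := pow_succ_sub ((x : ℝ) - 1 / 2) (by linarith) (j + 1)
  have hm1 : ((x : ℝ) - 1 / 2) ^ (j + 2) ≤ ((x : ℝ) - t) ^ (j + 2) := pow_le_pow_left₀ (by linarith) (by linarith) _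
  have hm2 : ((x : ℝ) - t) ^ (j + 2) ≤ ((x : ℝ) - 1 / 2 + 1) ^ (j + 2) := pow_le_pow_left₀ (by linarith) (by linarith) _
  have hm3 : ((x : ℝ) - 1 / 2) ^ (j + 2) ≤ (x : ℝ) ^ (j + 2) := pow_le_pow_left₀ (by linarith) (by linarith) _
  have hm4 : (x : ℝ) ^ (j + 2) ≤ ((x : ℝ) - 1 / 2 + 1) ^ (j + 2) := pow_le_pow_left₀ (by linarith) (by linarith) _
  have h5 : ((x : ℝ) - 1 / 2 + 1) ^ (j + 1) ≤ (2 * C * P) ^ (j + 1) := by
    apply pow_le_pow_left₀ (by linarith)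
    have : (1 : ℝ) ≤ C * P := one_le_mul_of_one_le_of_one_le hC' hP'
    linarith
  have h6 : (((j + 1 : ℕ) : ℝ) + 1) * ((x : ℝ) - 1 / 2 + 1) ^ (j + 1) ≤ ((j : ℝ) + 2) * (2 * C) ^ (j + 1) * (P : ℝ) ^ (j + 1) := by
    push_cast
    rw [mul_assoc ((j : ℝ) + 2), ← mul_pow]
    have : (j : ℝ) + 1 + 1 = j + 2 := by ring
    rw [this]
    exact mul_le_mul_of_nonneg_left h5 (by positivity)
  rw [abs_le]
  constructor <;> linarith

/-- the coarse count -/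
theorem coarse_s (j P C : ℕ) (μ : Fin (j + 4) → ℝ) (τ : ℝ) (hP : 1 ≤ P) (hC : 2 ≤ C) (hμ : ∀ i, |μ i| ≤ 1 / 2)
    (h3 : (((j + 3) * 2 ^ (j + 2) + 1 : ℕ) : ℝ) * (P : ℝ) ^ (j + 2) ≤ τ) (h4 : τ ≤ (C : ℝ) * (P : ℝ) ^ (j + 2)) :
    (P : ℝ) ^ (j + 3) ≤ (((BX (j + 4) P C).filter (fun x => |Fs j (j + 4) μ x - τ| ≤
      (((j : ℝ) + 2) * (C : ℝ) ^ (j + 1) + (j + 4) * (((j : ℝ) + 2) * (2 * C) ^ (j + 1))) * (P : ℝ) ^ (j + 1))).card : ℝ) := by
  have h1 := coarse1 j (j + 3) P C τ hP hC h3 h4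
  refine h1.trans ?_
  rw [Nat.cast_le]
  apply Finset.card_le_card
  intro x hx
  rw [Finset.mem_filter] at hx ⊢
  refine ⟨hx.1, ?_⟩
  have hxX : ∀ i, x i ∈ XX P C := by
    have := hx.1
    unfold BX at this
    rw [Fintype.mem_piFinset] at this
    exact this
  have h5 : |Fs j (j + 4) μ x - ∑ i, (x i : ℝ) ^ (j + 2)| ≤
      ((j : ℝ) + 4) * (((j : ℝ) + 2) * (2 * C) ^ (j + 1) * (P : ℝ) ^ (j + 1)) := by
    unfold Fs
    rw [← Finset.sum_sub_distrib]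
    refine (Finset.abs_sum_le_sum_abs _ _).trans ?_
    refine (Finset.sum_le_sum fun i _ => shift_close j P C (x i) (μ i) hP (by omega) (hxX i) (hμ i)).trans ?_
    rw [Finset.sum_const, Finset.card_univ, Fintype.card_fin, nsmul_eq_mul]
    apply le_of_eq
    push_cast
    ring
  have h6 : |Fs j (j + 4) μ x - τ| ≤ |Fs j (j + 4) μ x - ∑ i, (x i : ℝ) ^ (j + 2)| + |∑ i, (x i : ℝ) ^ (j + 2) - τ| :=
    abs_sub_le _ _ _
  refine h6.trans ((add_le_add h5 hx.2).trans (le_of_eq ?_))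
  ring

end Pool.Agent.Y867.WS
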