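import Pool.Agent.Y867.WS.SaD

/-! # The bad sets -/

set_option autoImplicit false

open MeasureTheory Filter Finset
open scoped ENNReal Real

namespace Pool.Agent.Y867.WS

open Pool.Agent.Y867.WR (QB QB_meas mem_QB)
open Pool.Agent.Y867.WC (XX XX_card BX BX_card gq gq_cont gq_pos gq_small gq_big gd plan)

/-- bad targets -/
def Bs (j C L P h : ℕ) : (i : ℕ) → (Fin (j + 4 + i) → ℝ) → Set ℝ
  | 0, μ => {τ | (L : ℝ) * (P : ℝ) ^ (j + 2) ≤ τ ∧ τ ≤ (C : ℝ) * (P : ℝ) ^ (j + 2) ∧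
      ∀ x ∈ BX (j + 4) P C, 1 / (2 : ℝ) ^ h ≤ |Fs j (j + 4) μ x - τ|}
  | (i + 1), (μ : Fin (j + 4 + i + 1) → ℝ) =>
      {τ | τ - ((P : ℝ) - μ 0) ^ (j + 2) ∈ Bs j C L P h i (Fin.tail μ) ∧
        τ - (2 * (P : ℝ) - μ 0) ^ (j + 2) ∈ Bs j C L P h i (Fin.tail μ)}

theorem Bs_closed (j C L P h i : ℕ) :
    IsClosed {p : (Fin (j + 4 + i) → ℝ) × ℝ | p.2 ∈ Bs j C L P h i p.1} := by
  induction i with
  | zero =>
    have h1 : {p : (Fin (j + 4 + 0) → ℝ) × ℝ | p.2 ∈ Bs j C L P h 0 p.1} =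
        {p : (Fin (j + 4) → ℝ) × ℝ | (L : ℝ) * (P : ℝ) ^ (j + 2) ≤ p.2} ∩
        ({p : (Fin (j + 4) → ℝ) × ℝ | p.2 ≤ (C : ℝ) * (P : ℝ) ^ (j + 2)} ∩
        ⋂ x ∈ BX (j + 4) P C, {p : (Fin (j + 4) → ℝ) × ℝ | 1 / (2 : ℝ) ^ h ≤ |Fs j (j + 4) p.1 x - p.2|}) := by
      ext p
      simp only [Bs, Set.mem_ofPred_eq, Set.mem_inter_iff, Set.mem_iInter]
    rw [h1]
    refine (isClosed_le continuous_const continuous_snd).inter
      ((isClosed_le continuous_snd continuous_const).inter ?_)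
    refine isClosed_biInter fun x _ => isClosed_le continuous_const ?_
    unfold Fs
    fun_prop
  | succ i ih =>
    have hc : ∀ c : ℝ, Continuous (fun p : (Fin (j + 4 + i + 1) → ℝ) × ℝ =>
        ((Fin.tail p.1 : Fin (j + 4 + i) → ℝ), p.2 - (c - p.1 0) ^ (j + 2))) := by
      intro c
      apply Continuous.prodMk
      · apply continuous_pi
        intro a
        exact (continuous_apply a.succ).comp continuous_fst
      · fun_prop
    have h1 : {p : (Fin (j + 4 + (i + 1)) → ℝ) × ℝ | p.2 ∈ Bs j C L P h (i + 1) p.1} =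
        (fun p : (Fin (j + 4 + i + 1) → ℝ) × ℝ =>
          ((Fin.tail p.1 : Fin (j + 4 + i) → ℝ), p.2 - ((P : ℝ) - p.1 0) ^ (j + 2))) ⁻¹'
            {p : (Fin (j + 4 + i) → ℝ) × ℝ | p.2 ∈ Bs j C L P h i p.1} ∩
        (fun p : (Fin (j + 4 + i + 1) → ℝ) × ℝ =>
          ((Fin.tail p.1 : Fin (j + 4 + i) → ℝ), p.2 - (2 * (P : ℝ) - p.1 0) ^ (j + 2))) ⁻¹'
            {p : (Fin (j + 4 + i) → ℝ) × ℝ | p.2 ∈ Bs j C L P h i p.1} := rfl
    rw [h1]
    exact (ih.preimage (hc _)).inter (ih.preimage (hc _))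

theorem Bs_meas (j C L P h i : ℕ) (μ : Fin (j + 4 + i) → ℝ) : MeasurableSet (Bs j C L P h i μ) := by
  have h1 := (Bs_closed j C L P h i).preimage (Continuous.prodMk continuous_const continuous_id :
    Continuous (fun τ : ℝ => ((μ, τ) : (Fin (j + 4 + i) → ℝ) × ℝ)))
  exact h1.measurableSet

theorem Bs_vol_meas (j C L P h i : ℕ) : Measurable (fun μ : Fin (j + 4 + i) → ℝ => volume (Bs j C L P h i μ)) :=
  measurable_measure_prodMk_left (Bs_closed j C L P h i).measurableSet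

/-- the measure of the first bad set -/
theorem meas0s (j P C h : ℕ) (μ : Fin (j + 4) → ℝ) (hP : 1 ≤ P) (hC : 2 ≤ C) (hμ : ∀ i, |μ i| ≤ 1 / 2)
    (CH : ℝ) (hCH : CH = ((j : ℝ) + 2) * (C : ℝ) ^ (j + 1) + (j + 4) * (((j : ℝ) + 2) * (2 * C) ^ (j + 1)))
    (a : ℝ) (ha : a = (P : ℝ) ^ 2 * Real.exp (-π) / (2 * CH))
    (hsmall : ((C : ℝ) * P) ^ (j + 4) * (Real.exp (-(π * 4 ^ h)) * 4 ^ h) ≤ a) :
    ENNReal.ofReal (a ^ 2) * volume (Bs j C ((j + 3) * 2 ^ (j + 2) + 1) P h 0 μ) ≤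
      ENNReal.ofReal (Js j (j + 4) P C (1 / (16 : ℝ) ^ h) ((CH * (P : ℝ) ^ (j + 1)) ^ 2) μ) := by
  have hP' : (1 : ℝ) ≤ P := by exact_mod_cast hP
  have hC1 : 1 ≤ C := by omega
  have hC' : (1 : ℝ) ≤ C := by exact_mod_cast hC1
  have hCH0 : 0 < CH := by
    rw [hCH]
    positivity
  have ha0 : 0 < a := by
    rw [ha]
    positivity
  set H := CH * (P : ℝ) ^ (j + 1) with hH
  have hH0 : 0 < H := by positivity
  set q : ℝ := 1 / (16 : ℝ) ^ h with hq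
  have hq0 : 0 < q := by positivity
  have hpl := plan (BX (j + 4) P C) (Fs j (j + 4) μ) q (H ^ 2) hq0 (by positivity)
  set f : ℝ → ℝ := fun τ => (∑ x ∈ BX (j + 4) P C, gd q (H ^ 2) (Fs j (j + 4) μ x - τ)) ^ 2 with hf
  have hsub : Bs j C ((j + 3) * 2 ^ (j + 2) + 1) P h 0 μ ⊆ {τ | ENNReal.ofReal (a ^ 2) ≤ ENNReal.ofReal (f τ)} := by
    intro τ hτ
    have hτ' : (((j + 3) * 2 ^ (j + 2) + 1 : ℕ) : ℝ) * (P : ℝ) ^ (j + 2) ≤ τ ∧ τ ≤ (C : ℝ) * (P : ℝ) ^ (j + 2) ∧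
      ∀ x ∈ BX (j + 4) P C, 1 / (2 : ℝ) ^ h ≤ |Fs j (j + 4) μ x - τ| := hτ
    obtain ⟨t1, t2, t3⟩ := hτ'
    rw [Set.mem_ofPred_eq]
    apply ENNReal.ofReal_le_ofReal
    have hc := coarse_s j P C μ τ hP hC hμ t1 t2
    rw [← hCH, ← hH] at hc
    have e1 : ∑ x ∈ BX (j + 4) P C, gq q (Fs j (j + 4) μ x - τ) ≤ a := by
      refine le_trans ?_ hsmall
      refine (Finset.sum_le_sum fun x hx => gq_small h _ (t3 x hx)).trans ?_
      rw [Finset.sum_const, nsmul_eq_mul]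
      exact mul_le_mul_of_nonneg_right (BX_card _ _ _ hP) (by positivity)
    have e2 : 2 * a ≤ ∑ x ∈ BX (j + 4) P C, gq (H ^ 2) (Fs j (j + 4) μ x - τ) := by
      have e3 : ∑ x ∈ (BX (j + 4) P C).filter (fun x => |Fs j (j + 4) μ x - τ| ≤ H), gq (H ^ 2) (Fs j (j + 4) μ x - τ) ≤
          ∑ x ∈ BX (j + 4) P C, gq (H ^ 2) (Fs j (j + 4) μ x - τ) :=
        Finset.sum_le_sum_of_subset_of_nonneg (Finset.filter_subset _ _)
          (fun x _ _ => (gq_pos _ _ (by positivity)).le)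
      refine le_trans ?_ e3
      have e4 : ∑ x ∈ (BX (j + 4) P C).filter (fun x => |Fs j (j + 4) μ x - τ| ≤ H), Real.exp (-π) / H ≤
          ∑ x ∈ (BX (j + 4) P C).filter (fun x => |Fs j (j + 4) μ x - τ| ≤ H), gq (H ^ 2) (Fs j (j + 4) μ x - τ) :=
        Finset.sum_le_sum fun x hx => gq_big H _ hH0 (Finset.mem_filter.mp hx).2
      refine le_trans ?_ e4
      rw [Finset.sum_const, nsmul_eq_mul]
      refine le_trans ?_ (mul_le_mul_of_nonneg_right hc (by positivity))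
      rw [ha, hH]
      apply le_of_eq
      field_simp
      ring
    have e5 : ∑ x ∈ BX (j + 4) P C, gd q (H ^ 2) (Fs j (j + 4) μ x - τ) ≤ -a := by
      unfold gd
      rw [Finset.sum_sub_distrib]
      linarith
    rw [hf]
    simp only
    rw [← neg_sq (∑ x ∈ BX (j + 4) P C, gd q (H ^ 2) (Fs j (j + 4) μ x - τ))]
    exact pow_le_pow_left₀ ha0.le (by linarith) 2
  have hfm : Measurable (fun τ => ENNReal.ofReal (f τ)) := by
    apply Measurable.ennreal_ofReal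
    apply Measurable.pow_const
    apply Finset.measurable_fun_sum
    intro x _
    unfold gd
    exact (((gq_cont q).comp (by fun_prop)).sub ((gq_cont (H ^ 2)).comp (by fun_prop))).measurable
  have hmk := mul_meas_ge_le_lintegral (μ := volume) hfm (ENNReal.ofReal (a ^ 2))
  have hJ : ∫⁻ τ, ENNReal.ofReal (f τ) = ENNReal.ofReal (Js j (j + 4) P C q (H ^ 2) μ) := by
    rw [← ofReal_integral_eq_lintegral_ofReal hpl.1 (Eventually.of_forall fun τ => sq_nonneg _)]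
    rfl
  rw [hJ] at hmk
  exact (mul_le_mul_right (measure_mono hsub) _).trans hmk

/-- the bound for the measure of the bad sets -/
noncomputable def lams (j N0 i m : ℕ) : ℝ :=
  ((2 ^ m : ℕ) : ℝ) ^ (j + 1) * (2 ^ (5 * (m / N0)) / ((2 ^ m : ℕ) : ℝ)) ^ (2 ^ i) / 2 ^ (m / N0)

theorem lams_pos (j N0 i m : ℕ) : 0 < lams j N0 i m := by
  unfold lams
  positivity

theorem Js_meas (j n P C : ℕ) (q Q : ℝ) : Measurable (fun μ : Fin n → ℝ => Js j n P C q Q μ) := by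
  have hc : Continuous (fun p : (Fin n → ℝ) × ℝ => (∑ x ∈ BX n P C, gd q Q (Fs j n p.1 x - p.2)) ^ 2) := by
    apply Continuous.pow
    apply continuous_finsetSum
    intro x _
    unfold gd Fs
    exact ((gq_cont q).comp (by fun_prop)).sub ((gq_cont Q).comp (by fun_prop))
  exact (hc.stronglyMeasurable.integral_prod_right).measurable

end Pool.Agent.Y867.WS
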