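import Pool.Agent.Y867.WS.SaE

/-! # The first stage: the first bad set is small for almost all shifts -/

set_option autoImplicit false

open MeasureTheory Filter Finset
open scoped ENNReal Real

namespace Pool.Agent.Y867.WS

open Pool.Agent.Y867.WR (QB QB_meas mem_QB bc')
open Pool.Agent.Y867.WC (growth small_ev)

theorem stage0s (j C N0 : ℕ) (hC2 : 2 ≤ C) (hN : 1 ≤ N0) :
    ∀ᵐ μ ∂(volume.restrict (QB (j + 4) (1 / 2))), ∀ᶠ m : ℕ in atTop,
      volume (Bs j C ((j + 3) * 2 ^ (j + 2) + 1) (2 ^ m) (m / N0) 0 μ) ≤ ENNReal.ofReal (lams j N0 0 m) := by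
  have hC1 : 1 ≤ C := by omega
  have hC' : (1 : ℝ) ≤ C := by exact_mod_cast hC1
  set CH : ℝ := ((j : ℝ) + 2) * (C : ℝ) ^ (j + 1) + (j + 4) * (((j : ℝ) + 2) * (2 * C) ^ (j + 1)) with hCH
  have hCpow : (1 : ℝ) ≤ (C : ℝ) ^ (j + 1) := one_le_pow₀ hC'
  have hCH1 : 1 ≤ CH := by
    have h1 : (1 : ℝ) ≤ ((j : ℝ) + 2) * (C : ℝ) ^ (j + 1) := one_le_mul_of_one_le_of_one_le (by
      have : (0 : ℝ) ≤ j := by positivity
      linarith) hCpow
    have h2 : 0 ≤ ((j : ℝ) + 4) * (((j : ℝ) + 2) * (2 * C) ^ (j + 1)) := by positivity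
    linarith
  have hpi := Real.pi_pos
  set a : ℕ → ℝ := fun m => ((2 ^ m : ℕ) : ℝ) ^ 2 * Real.exp (-π) / (2 * CH) with ha
  have ha0 : ∀ m, 0 < a m := fun m => by
    simp only [ha]
    positivity
  have hlogC : 0 ≤ Real.log C := Real.log_nonneg hC'
  obtain ⟨D0, hD0⟩ : ∃ D0 : ℝ, D0 = (2 ^ (j + 2) * C ^ 2 * (1 + Real.log C)) ^ (j + 4) := ⟨_, rfl⟩
  have hD00 : 0 ≤ D0 := by
    rw [hD0]
    positivity
  obtain ⟨K2, hK2⟩ : ∃ K2 : ℝ, K2 = D0 * (1 + 2 * π ^ 2 * CH ^ 4) * (4 * CH ^ 2 * Real.exp π ^ 2) := ⟨_, rfl⟩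
  have hK20 : 0 ≤ K2 := by
    rw [hK2]
    positivity
  obtain ⟨p0, hp0⟩ := eventually_atTop.mp (growth (j + 6) N0 hN)
  set s : ℕ → Set (Fin (j + 4) → ℝ) := fun m => {μ | ENNReal.ofReal (a m ^ 2 * lams j N0 0 m) ≤
    ENNReal.ofReal (Js j (j + 4) (2 ^ m) C (1 / (16 : ℝ) ^ (m / N0)) ((CH * ((2 ^ m : ℕ) : ℝ) ^ (j + 1)) ^ 2) μ)} with hs
  have hmu : ∀ m, p0 ≤ m → (volume.restrict (QB (j + 4) (1 / 2))) (s m) ≤
      ENNReal.ofReal (K2 * (1 / ((m : ℝ) + 1) ^ 2)) := by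
    intro m hm
    have hP1 : 1 ≤ 2 ^ m := Nat.one_le_two_pow
    have hP' : (0 : ℝ) < ((2 ^ m : ℕ) : ℝ) := by exact_mod_cast hP1
    set P : ℝ := ((2 ^ m : ℕ) : ℝ) with hP
    have hlam : 0 < a m ^ 2 * lams j N0 0 m := mul_pos (pow_pos (ha0 m) 2) (lams_pos _ _ _ _)
    have h1 := meas_ge_le_lintegral_div (μ := volume.restrict (QB (j + 4) (1 / 2)))
      ((Js_meas j (j + 4) (2 ^ m) C (1 / (16 : ℝ) ^ (m / N0)) ((CH * P ^ (j + 1)) ^ 2)).ennreal_ofReal.aemeasurable)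
      (ne_of_gt (ENNReal.ofReal_pos.mpr hlam)) ENNReal.ofReal_ne_top
    have hq1 : (1 : ℝ) / (16 : ℝ) ^ (m / N0) ≤ 1 := by
      rw [div_le_one (by positivity)]
      exact one_le_pow₀ (by norm_num)
    have h2 := msq2s j (2 ^ m) C CH (1 / (16 : ℝ) ^ (m / N0)) hP1 hC1 hCH1 (by positivity) hq1
    rw [← hP] at h2
    refine h1.trans ((ENNReal.div_le_div_right h2 _).trans ?_)
    rw [← ENNReal.ofReal_div_of_pos hlam]
    apply ENNReal.ofReal_le_ofReal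
    have hsq : √(1 / (16 : ℝ) ^ (m / N0)) = 1 / 4 ^ (m / N0) := by
      rw [Real.sqrt_div zero_le_one, Real.sqrt_one]
      congr 1
      rw [show (16 : ℝ) ^ (m / N0) = (4 ^ (m / N0)) ^ 2 by rw [← pow_mul, mul_comm _ 2, pow_mul]; norm_num]
      exact Real.sqrt_sq (by positivity)
    have hlogP : Real.log (C * P) ≤ Real.log C + m := by
      rw [Real.log_mul (by positivity) (by positivity), hP]
      push_cast
      rw [Real.log_pow]
      have h3 : Real.log 2 ≤ 1 := by linarith [Real.log_two_lt_d9]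
      have h4 : (m : ℝ) * Real.log 2 ≤ m * 1 := mul_le_mul_of_nonneg_left h3 (by positivity)
      linarith
    have hlogP0 : 0 ≤ Real.log (C * P) := by
      apply Real.log_nonneg
      exact one_le_mul_of_one_le_of_one_le hC' (by rw [hP]; exact_mod_cast hP1)
    have hD : (2 ^ (j + 2) * C ^ 2 * (1 + Real.log (C * P))) ^ (j + 4) ≤ D0 * ((m : ℝ) + 1) ^ (j + 4) := by
      rw [hD0, ← mul_pow]
      apply pow_le_pow_left₀ (by positivity)
      rw [mul_assoc (2 ^ (j + 2) * (C : ℝ) ^ 2)]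
      apply mul_le_mul_of_nonneg_left _ (by positivity)
      nlinarith [mul_nonneg hlogC (by positivity : (0 : ℝ) ≤ m)]
    have hg := hp0 m hm
    set h := m / N0 with hh
    have hlameq : a m ^ 2 * lams j N0 0 m = P ^ (j + 4) * 16 ^ h / (4 * CH ^ 2 * Real.exp π ^ 2) := by
      simp only [ha]
      unfold lams
      rw [← hP, ← hh, Real.exp_neg, pow_zero, pow_one]
      have h32 : (2 : ℝ) ^ (5 * h) = 16 ^ h * 2 ^ h := by
        rw [← mul_pow, pow_mul]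
        norm_num
      rw [h32, show j + 4 = (j + 1) + 3 by ring, pow_add P (j + 1) 3]
      field_simp
      ring
    have hx : P ^ (j + 4) / (1 / (4 : ℝ) ^ h) = P ^ (j + 4) * 4 ^ h := by rw [div_div_eq_mul_div, div_one]
    rw [hlameq, hsq, hx, div_div_eq_mul_div]
    rw [div_le_iff₀ (by positivity)]
    have h5 : ((m : ℝ) + 1) ^ (j + 4) * 4 ^ h ≤ 1 / ((m : ℝ) + 1) ^ 2 * 16 ^ h := by
      have h6 : ((m : ℝ) + 1) ^ (j + 4) * ((m : ℝ) + 1) ^ 2 ≤ 4 ^ h := by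
        rw [← pow_add]
        refine hg.trans ?_
        exact pow_le_pow_left₀ (by norm_num) (by norm_num) _
      have h7 : (16 : ℝ) ^ h = 4 ^ h * 4 ^ h := by rw [← mul_pow]; norm_num
      rw [h7, one_div, ← mul_assoc]
      apply mul_le_mul_of_nonneg_right _ (by positivity)
      rw [inv_mul_eq_div, le_div_iff₀ (by positivity)]
      exact h6
    obtain ⟨D1, hD1⟩ : ∃ D1 : ℝ, D1 = (2 ^ (j + 2) * C ^ 2 * (1 + Real.log (C * P))) ^ (j + 4) := ⟨_, rfl⟩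
    rw [← hD1] at hD ⊢
    obtain ⟨u, hu⟩ : ∃ u : ℝ, u = ((m : ℝ) + 1) ^ (j + 4) := ⟨_, rfl⟩
    obtain ⟨v, hv⟩ : ∃ v : ℝ, v = P ^ (j + 4) := ⟨_, rfl⟩
    rw [← hu] at hD h5
    rw [← hv]
    have hv0 : 0 ≤ v := by
      rw [hv]
      positivity
    calc D1 * (1 + 2 * π ^ 2 * CH ^ 4) * (v * 4 ^ h) *
          (4 * CH ^ 2 * Real.exp π ^ 2) ≤ (D0 * u) *
          (1 + 2 * π ^ 2 * CH ^ 4) * (v * 4 ^ h) * (4 * CH ^ 2 * Real.exp π ^ 2) := by
          apply mul_le_mul_of_nonneg_right _ (by positivity)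
          apply mul_le_mul_of_nonneg_right _ (by positivity)
          exact mul_le_mul_of_nonneg_right hD (by positivity)
      _ = K2 * (u * 4 ^ h) * v := by rw [hK2]; ring
      _ ≤ K2 * (1 / ((m : ℝ) + 1) ^ 2 * 16 ^ h) * v := by
          apply mul_le_mul_of_nonneg_right _ hv0
          exact mul_le_mul_of_nonneg_left h5 hK20
      _ = _ := by ring
  have hsum : Summable (fun m : ℕ => K2 * (1 / ((m : ℝ) + 1) ^ 2)) := by
    apply Summable.mul_left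
    have h1 := (summable_nat_add_iff (f := fun m : ℕ => 1 / (m : ℝ) ^ 2) 1).mpr
      (Real.summable_one_div_nat_pow.mpr (by norm_num))
    refine h1.congr fun m => ?_
    push_cast
    rfl
  have hae := bc' (volume.restrict (QB (j + 4) (1 / 2))) s _ hsum p0 hmu
  have hQ : ∀ᵐ μ ∂(volume.restrict (QB (j + 4) (1 / 2))), μ ∈ QB (j + 4) (1 / 2) := ae_restrict_mem (QB_meas _ _)
  filter_upwards [hae, hQ] with μ h1 h2
  filter_upwards [h1, small_ev (j + 1) C N0 CH hN hC1 (by linarith)] with m h3 h4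
  have hP1 : 1 ≤ 2 ^ m := Nat.one_le_two_pow
  have hP2 : (1 : ℝ) ≤ ((2 ^ m : ℕ) : ℝ) := by exact_mod_cast hP1
  have h4' : ((C : ℝ) * ((2 ^ m : ℕ) : ℝ)) ^ (j + 4) * (Real.exp (-(π * 4 ^ (m / N0))) * 4 ^ (m / N0)) ≤ a m := by
    refine h4.trans ?_
    simp only [ha]
    apply div_le_div_of_nonneg_right _ (by positivity)
    apply mul_le_mul_of_nonneg_right _ (Real.exp_pos _).le
    exact le_self_pow₀ hP2 (by norm_num)
  have h6 := meas0s j (2 ^ m) C (m / N0) μ hP1 hC2 ((mem_QB _ _ μ).mp h2) CH hCH (a m) rfl h4'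
  have h7 : ENNReal.ofReal (Js j (j + 4) (2 ^ m) C (1 / (16 : ℝ) ^ (m / N0))
      ((CH * ((2 ^ m : ℕ) : ℝ) ^ (j + 1)) ^ 2) μ) < ENNReal.ofReal (a m ^ 2 * lams j N0 0 m) := by
    simp only [hs, Set.mem_ofPred_eq] at h3
    exact not_le.mp h3
  have h8 := h6.trans_lt h7
  rw [ENNReal.ofReal_mul (by positivity)] at h8
  by_contra h9
  push Not at h9
  exact absurd h8 (not_lt.mpr (mul_le_mul_right h9.le _))

end Pool.Agent.Y867.WS
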