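import Pool.Agent.Y867.WS.SaE

/-! # One more variable: two shifted powers, and expanding maps -/

set_option autoImplicit false

open MeasureTheory Filter Finset
open scoped ENNReal Real NNReal

namespace Pool.Agent.Y867.WS

/-- preimages under expanding maps -/
theorem vol_exp (g : ℝ → ℝ) (c : ℝ) (hc : 0 < c) (I : Set ℝ)
    (hg : ∀ x ∈ I, ∀ y ∈ I, c * |x - y| ≤ |g x - g y|) (B : Set ℝ) :
    volume (I ∩ g ⁻¹' B) ≤ ENNReal.ofReal (1 / c) * volume B := by
  set S := I ∩ g ⁻¹' B with hS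
  have hinj : Set.InjOn g S := by
    intro x hx y hy hxy
    have h1 := hg x hx.1 y hy.1
    rw [hxy, sub_self, abs_zero] at h1
    by_contra hne
    have h2 : 0 < |x - y| := abs_pos.mpr (sub_ne_zero.mpr hne)
    have h3 : 0 < c * |x - y| := mul_pos hc h2
    linarith
  set f := Function.invFunOn g S with hf
  have hfg : ∀ x ∈ S, f (g x) = x := fun x hx => hinj.leftInvOn_invFunOn hx
  have himg : S = f '' (g '' S) := by
    ext x
    constructor
    · intro hx
      exact ⟨g x, ⟨x, hx, rfl⟩, hfg x hx⟩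
    · rintro ⟨_, ⟨y, hy, rfl⟩, hxy⟩
      rw [hfg y hy] at hxy
      exact hxy ▸ hy
  have hlip : LipschitzOnWith (Real.toNNReal (1 / c)) f (g '' S) := by
    apply LipschitzOnWith.of_dist_le_mul
    rintro _ ⟨x, hx, rfl⟩ _ ⟨y, hy, rfl⟩
    rw [hfg x hx, hfg y hy, Real.dist_eq, Real.dist_eq, Real.coe_toNNReal _ (by positivity), one_div,
      inv_mul_eq_div, le_div_iff₀ hc, mul_comm]
    exact hg x hx.1 y hy.1
  have h1 := hlip.hausdorffMeasure_image_le (d := 1) zero_le_one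
  rw [← himg, hausdorffMeasure_real, ENNReal.rpow_one] at h1
  refine h1.trans ?_
  apply mul_le_mul' le_rfl
  apply measure_mono
  rintro _ ⟨x, hx, rfl⟩
  exact hx.2

/-- the difference of the two shifted powers is expanding -/
theorem expanding (j : ℕ) (P : ℝ) (hP : 1 ≤ P) (s t : ℝ) (hs : s ∈ Set.Icc (-(1 / 2) : ℝ) (1 / 2))
    (ht : t ∈ Set.Icc (-(1 / 2) : ℝ) (1 / 2)) :
    (P ^ (j + 1) / 2 ^ j) * |s - t| ≤
      |((2 * P - s) ^ (j + 2) - (P - s) ^ (j + 2)) - ((2 * P - t) ^ (j + 2) - (P - t) ^ (j + 2))| := by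
  wlog h : s ≤ t generalizing s t
  · have h1 := this t s ht hs (not_le.mp h).le
    rwa [abs_sub_comm s t, abs_sub_comm (((2 * P - s) ^ (j + 2) - (P - s) ^ (j + 2)))]
  set G : ℝ → ℝ := fun u => 1 * ((u + P) ^ (j + 1 + 1) - u ^ (j + 1 + 1)) with hG
  have hder : ∀ u, HasDerivAt G (1 * (((j + 1 : ℕ) : ℝ) + 1) * ((u + P) ^ (j + 1) - u ^ (j + 1))) u :=
    fun u => der1 1 P (j + 1) u
  have hD : Convex ℝ (Set.Ici (P / 2)) := convex_Ici _
  have key := hD.mul_sub_le_image_sub_of_le_deriv (f := G) (C := P ^ (j + 1) / 2 ^ j)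
    (fun u _ => (hder u).continuousAt.continuousWithinAt)
    (fun u _ => (hder u).differentiableAt.differentiableWithinAt)
    (by
      intro u hu
      rw [(hder u).deriv]
      have hu' : P / 2 ≤ u := interior_subset hu
      have h1 := pow_gap j u P (by linarith) (by linarith)
      have h2 : (P / 2) ^ j ≤ u ^ j := pow_le_pow_left₀ (by linarith) hu' j
      have h3 : P * (P / 2) ^ j ≤ (u + P) ^ (j + 1) - u ^ (j + 1) :=
        (mul_le_mul_of_nonneg_left h2 (by linarith)).trans h1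
      have h4 : P ^ (j + 1) / 2 ^ j = P * (P / 2) ^ j := by
        rw [div_pow, pow_succ]
        ring
      rw [h4]
      have h5 : 0 ≤ P * (P / 2) ^ j := by positivity
      have h6 : (1 : ℝ) ≤ 1 * (((j + 1 : ℕ) : ℝ) + 1) := by
        push_cast
        have : (0 : ℝ) ≤ j := by positivity
        linarith
      calc P * (P / 2) ^ j ≤ (u + P) ^ (j + 1) - u ^ (j + 1) := h3
        _ ≤ 1 * (((j + 1 : ℕ) : ℝ) + 1) * ((u + P) ^ (j + 1) - u ^ (j + 1)) :=
          le_mul_of_one_le_left (h5.trans h3) h6)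
    (P - t) (by
      rw [Set.mem_Ici]
      linarith [ht.2]) (P - s) (by
      rw [Set.mem_Ici]
      linarith [hs.2]) (by linarith)
  have h1 : P - s - (P - t) = t - s := by ring
  have h2 : G (P - s) - G (P - t) = ((2 * P - s) ^ (j + 2) - (P - s) ^ (j + 2)) - ((2 * P - t) ^ (j + 2) - (P - t) ^ (j + 2)) := by
    simp only [hG, one_mul]
    have h3 : P - s + P = 2 * P - s := by ring
    have h4 : P - t + P = 2 * P - t := by ring
    rw [h3, h4]
  rw [h1, h2] at key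
  rw [abs_sub_comm s t, abs_of_nonneg (by linarith : 0 ≤ t - s)]
  exact key.trans (le_abs_self _)

theorem dbls_set (j : ℕ) (P : ℝ) (B : Set ℝ) (hB : MeasurableSet B) :
    MeasurableSet {p : ℝ × ℝ | p.2 ∈ B ∧ p.2 - ((2 * P - p.1) ^ (j + 2) - (P - p.1) ^ (j + 2)) ∈ B} := by
  apply MeasurableSet.inter
  · exact measurable_snd hB
  · exact (by fun_prop : Measurable (fun p : ℝ × ℝ => p.2 - ((2 * P - p.1) ^ (j + 2) - (P - p.1) ^ (j + 2)))) hB

theorem dbls_fib (j : ℕ) (P : ℝ) (B : Set ℝ) (hB : MeasurableSet B) (t : ℝ) :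
    volume {τ : ℝ | τ - (P - t) ^ (j + 2) ∈ B ∧ τ - (2 * P - t) ^ (j + 2) ∈ B} =
      volume (Prod.mk t ⁻¹' {p : ℝ × ℝ | p.2 ∈ B ∧ p.2 - ((2 * P - p.1) ^ (j + 2) - (P - p.1) ^ (j + 2)) ∈ B}) := by
  have hS : MeasurableSet (Prod.mk t ⁻¹' {p : ℝ × ℝ | p.2 ∈ B ∧
      p.2 - ((2 * P - p.1) ^ (j + 2) - (P - p.1) ^ (j + 2)) ∈ B}) :=
    measurable_prodMk_left (dbls_set j P B hB)
  have h1 := (measurePreserving_sub_right (volume : Measure ℝ) ((P - t) ^ (j + 2))).measure_preimage hS.nullMeasurableSet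
  rw [← h1]
  congr 1
  ext τ
  simp only [Set.mem_ofPred_eq, Set.mem_preimage]
  have h2 : τ - (P - t) ^ (j + 2) - ((2 * P - t) ^ (j + 2) - (P - t) ^ (j + 2)) = τ - (2 * P - t) ^ (j + 2) := by ring
  rw [h2]

/-- two shifted powers with a random shift: the measures multiply -/
theorem dbls (j : ℕ) (P : ℝ) (hP : 1 ≤ P) (B : Set ℝ) (hB : MeasurableSet B) :
    ∫⁻ t in Set.Icc (-(1 / 2) : ℝ) (1 / 2), volume {τ : ℝ | τ - (P - t) ^ (j + 2) ∈ B ∧ τ - (2 * P - t) ^ (j + 2) ∈ B} ≤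
      ENNReal.ofReal (2 ^ j / P ^ (j + 1)) * volume B * volume B := by
  set I := Set.Icc (-(1 / 2) : ℝ) (1 / 2) with hI
  have hP0 : 0 < P := by linarith
  have hS := dbls_set j P B hB
  set T : Set (ℝ × ℝ) := {p : ℝ × ℝ | p.2 ∈ B ∧ p.2 - ((2 * P - p.1) ^ (j + 2) - (P - p.1) ^ (j + 2)) ∈ B} with hT
  have h1 : ∫⁻ t in I, volume {τ : ℝ | τ - (P - t) ^ (j + 2) ∈ B ∧ τ - (2 * P - t) ^ (j + 2) ∈ B} =
      ((volume.restrict I).prod (volume : Measure ℝ)) T := by
    rw [Measure.prod_apply hS]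
    exact lintegral_congr fun t => dbls_fib j P B hB t
  rw [h1, Measure.prod_apply_symm hS]
  have h2 : ∀ z : ℝ, (volume.restrict I) ((fun x : ℝ => (x, z)) ⁻¹' T) ≤
      B.indicator (fun _ => ENNReal.ofReal (2 ^ j / P ^ (j + 1)) * volume B) z := by
    intro z
    have hTz : MeasurableSet ((fun x : ℝ => (x, z)) ⁻¹' T) := measurable_prodMk_right hS
    rw [Measure.restrict_apply hTz]
    by_cases hz : z ∈ B
    · rw [Set.indicator_of_mem hz]
      have h3 := vol_exp (fun t => (2 * P - t) ^ (j + 2) - (P - t) ^ (j + 2)) (P ^ (j + 1) / 2 ^ j) (by positivity) I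
        (fun x hx y hy => expanding j P hP x y hx hy) ((fun y : ℝ => z - y) ⁻¹' B)
      rw [(Measure.measurePreserving_sub_left (volume : Measure ℝ) z).measure_preimage hB.nullMeasurableSet,
        one_div_div] at h3
      refine (measure_mono ?_).trans h3
      rintro x ⟨hx1, hx2⟩
      exact ⟨hx2, hx1.2⟩
    · rw [Set.indicator_of_notMem hz]
      have h3 : ((fun x : ℝ => (x, z)) ⁻¹' T) ∩ I = ∅ := by
        rw [Set.eq_empty_iff_forall_notMem]
        rintro x ⟨hx1, _⟩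
        exact hz hx1.1
      rw [h3, measure_empty]
  refine (lintegral_mono h2).trans ?_
  rw [lintegral_indicator hB, setLIntegral_const]

end Pool.Agent.Y867.WS
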