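import Pool.Agent.Y867.WS.SaF
import Pool.Agent.Y867.WS.SaG

/-! # The stages -/

set_option autoImplicit false

open MeasureTheory Filter Finset
open scoped ENNReal Real

namespace Pool.Agent.Y867.WS

open Pool.Agent.Y867.WR (QB QB_meas mem_QB bc')
open Pool.Agent.Y867.WC (growth)

theorem lams_step (j N0 i m : ℕ) :
    lams j N0 i m ^ 2 / ((2 ^ m : ℕ) : ℝ) ^ (j + 1) = lams j N0 (i + 1) m * (1 / 2 ^ (m / N0)) := by
  unfold lams
  have hP : (0 : ℝ) < ((2 ^ m : ℕ) : ℝ) := by exact_mod_cast Nat.one_le_two_pow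
  set P : ℝ := ((2 ^ m : ℕ) : ℝ)
  set r : ℝ := 2 ^ (5 * (m / N0)) / P
  have h1 : r ^ (2 ^ (i + 1)) = (r ^ (2 ^ i)) ^ 2 := by rw [← pow_mul, ← pow_succ]
  rw [h1]
  field_simp

theorem step1s (j N0 i : ℕ) (hN : 1 ≤ N0) (B : ℕ → Set ℝ) (hB : ∀ m, MeasurableSet (B m))
    (hb : ∀ᶠ m : ℕ in atTop, volume (B m) ≤ ENNReal.ofReal (lams j N0 i m)) :
    ∀ᵐ t ∂(volume.restrict (Set.Icc (-(1 / 2) : ℝ) (1 / 2))), ∀ᶠ m : ℕ in atTop,
      volume {τ : ℝ | τ - (((2 ^ m : ℕ) : ℝ) - t) ^ (j + 2) ∈ B m ∧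
        τ - (2 * ((2 ^ m : ℕ) : ℝ) - t) ^ (j + 2) ∈ B m} ≤ ENNReal.ofReal (lams j N0 (i + 1) m) := by
  set I := Set.Icc (-(1 / 2) : ℝ) (1 / 2) with hI
  set g : ℕ → ℝ → ℝ≥0∞ := fun m t => volume {τ : ℝ | τ - (((2 ^ m : ℕ) : ℝ) - t) ^ (j + 2) ∈ B m ∧
        τ - (2 * ((2 ^ m : ℕ) : ℝ) - t) ^ (j + 2) ∈ B m} with hg
  have hgm : ∀ m, Measurable (g m) := by
    intro m
    have h1 : g m = fun t => volume (Prod.mk t ⁻¹' {p : ℝ × ℝ | p.2 ∈ B m ∧
        p.2 - ((2 * ((2 ^ m : ℕ) : ℝ) - p.1) ^ (j + 2) - (((2 ^ m : ℕ) : ℝ) - p.1) ^ (j + 2)) ∈ B m}) := by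
      funext t
      exact dbls_fib j _ (B m) (hB m) t
    rw [h1]
    exact measurable_measure_prodMk_left (dbls_set j _ (B m) (hB m))
  set s : ℕ → Set ℝ := fun m => {t | ENNReal.ofReal (lams j N0 (i + 1) m) ≤ g m t} with hs
  obtain ⟨p0, hp0⟩ := eventually_atTop.mp (hb.and (growth 2 N0 hN))
  have hmu : ∀ m, p0 ≤ m → (volume.restrict I) (s m) ≤ ENNReal.ofReal (2 ^ j * (1 / ((m : ℝ) + 1) ^ 2)) := by
    intro m hm
    obtain ⟨hb1, hgr⟩ := hp0 m hm
    have hP1 : (1 : ℝ) ≤ ((2 ^ m : ℕ) : ℝ) := by exact_mod_cast Nat.one_le_two_pow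
    have hP : (0 : ℝ) < ((2 ^ m : ℕ) : ℝ) := by linarith
    set P : ℝ := ((2 ^ m : ℕ) : ℝ) with hPdef
    have hlam := lams_pos j N0 (i + 1) m
    have h1 := meas_ge_le_lintegral_div (μ := (volume.restrict I)) (hgm m).aemeasurable
      (ne_of_gt (ENNReal.ofReal_pos.mpr hlam)) ENNReal.ofReal_ne_top
    refine h1.trans ?_
    have h2 := dbls j P hP1 (B m) (hB m)
    have h3 : ∫⁻ t in I, g m t ≤ ENNReal.ofReal (2 ^ j * (lams j N0 (i + 1) m * (1 / 2 ^ (m / N0)))) := by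
      refine h2.trans ?_
      have h4 : ENNReal.ofReal (2 ^ j / P ^ (j + 1)) * volume (B m) * volume (B m) ≤
          ENNReal.ofReal (2 ^ j / P ^ (j + 1)) * ENNReal.ofReal (lams j N0 i m) * ENNReal.ofReal (lams j N0 i m) :=
        mul_le_mul' (mul_le_mul' le_rfl hb1) hb1
      refine h4.trans ?_
      rw [← ENNReal.ofReal_mul (by positivity), ← ENNReal.ofReal_mul (mul_nonneg (by positivity) (lams_pos _ _ _ _).le)]
      apply ENNReal.ofReal_le_ofReal
      rw [← lams_step]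
      apply le_of_eq
      ring
    refine (ENNReal.div_le_div_right h3 _).trans ?_
    rw [← ENNReal.ofReal_div_of_pos hlam]
    apply ENNReal.ofReal_le_ofReal
    rw [mul_div_assoc, mul_div_right_comm, div_self hlam.ne', one_mul]
    apply mul_le_mul_of_nonneg_left _ (by positivity)
    exact one_div_le_one_div_of_le (by positivity) hgr
  have hsum : Summable (fun m : ℕ => 2 ^ j * (1 / ((m : ℝ) + 1) ^ 2)) := by
    apply Summable.mul_left
    have h1 := (summable_nat_add_iff (f := fun m : ℕ => 1 / (m : ℝ) ^ 2) 1).mpr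
      (Real.summable_one_div_nat_pow.mpr (by norm_num))
    refine h1.congr fun m => ?_
    push_cast
    rfl
  filter_upwards [bc' (volume.restrict I) s _ hsum p0 hmu] with t h1
  filter_upwards [h1] with m hm
  simp only [hs, Set.mem_ofPred_eq] at hm
  exact (not_le.mp hm).le

/-- the statement of stage `i` -/
def STs (j C N0 i : ℕ) (μ : Fin (j + 4 + i) → ℝ) : Prop :=
  (∀ l, |μ l| ≤ 1 / 2) → ∀ᶠ m : ℕ in atTop,
    volume (Bs j C ((j + 3) * 2 ^ (j + 2) + 1) (2 ^ m) (m / N0) i μ) ≤ ENNReal.ofReal (lams j N0 i m)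

theorem STs_meas (j C N0 i : ℕ) : MeasurableSet {μ : Fin (j + 4 + i) → ℝ | STs j C N0 i μ} := by
  have h1 : {μ : Fin (j + 4 + i) → ℝ | STs j C N0 i μ} =
      (QB (j + 4 + i) (1 / 2))ᶜ ∪ ⋃ n : ℕ, ⋂ m : ℕ, ⋂ _ : n ≤ m,
        {μ | volume (Bs j C ((j + 3) * 2 ^ (j + 2) + 1) (2 ^ m) (m / N0) i μ) ≤ ENNReal.ofReal (lams j N0 i m)} := by
    ext μ
    simp only [STs, Set.mem_ofPred_eq, Set.mem_union, Set.mem_compl_iff, Set.mem_iUnion, Set.mem_iInter,
      eventually_atTop, mem_QB]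
    tauto
  rw [h1]
  apply MeasurableSet.union
  · exact (QB_meas _ _).compl
  · refine MeasurableSet.iUnion fun n => MeasurableSet.iInter fun m => MeasurableSet.iInter fun _ => ?_
    exact measurableSet_le (Bs_vol_meas j C _ (2 ^ m) (m / N0) i) measurable_const

theorem stageNs (j C N0 : ℕ) (hC : 2 ≤ C) (hN : 1 ≤ N0) (i : ℕ) :
    ∀ᵐ μ : Fin (j + 4 + i) → ℝ, STs j C N0 i μ := by
  induction i with
  | zero =>
    have h1 := stage0s j C N0 hC hN
    rw [ae_restrict_iff' (QB_meas _ _)] at h1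
    filter_upwards [h1] with μ hμ hb
    have h2 : μ ∈ QB (j + 4) (1 / 2) := by
      rw [mem_QB]
      exact hb
    exact hμ h2
  | succ i ih =>
    have hmp := volume_preserving_piFinSuccAbove (fun _ : Fin (j + 4 + i + 1) => ℝ) 0
    have hST := STs_meas j C N0 (i + 1)
    have hNm : MeasurableSet ({μ : Fin (j + 4 + i + 1) → ℝ | STs j C N0 (i + 1) μ}ᶜ) := hST.compl
    rw [ae_iff]
    have h0 : {a : Fin (j + 4 + (i + 1)) → ℝ | ¬STs j C N0 (i + 1) a} =
        {μ : Fin (j + 4 + i + 1) → ℝ | STs j C N0 (i + 1) μ}ᶜ := rfl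
    rw [h0]
    have hmps := hmp.symm
    rw [← hmps.measure_preimage hNm.nullMeasurableSet, Measure.volume_eq_prod,
      Measure.prod_apply_symm (hmps.measurable hNm)]
    rw [lintegral_eq_zero_of_ae_eq_zero]
    filter_upwards [ih] with μ' hμ'
    rw [Pi.zero_apply]
    have key : ∀ᵐ t : ℝ, STs j C N0 (i + 1) (Fin.cons t μ' : Fin (j + 4 + i + 1) → ℝ) := by
      by_cases hb : ∀ l, |μ' l| ≤ 1 / 2
      · have h1 := step1s j N0 i hN (fun m => Bs j C ((j + 3) * 2 ^ (j + 2) + 1) (2 ^ m) (m / N0) i μ')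
          (fun m => Bs_meas _ _ _ _ _ _ _) (hμ' hb)
        rw [ae_restrict_iff' measurableSet_Icc] at h1
        filter_upwards [h1] with t ht hc
        have ht0 : t ∈ Set.Icc (-(1 / 2) : ℝ) (1 / 2) := by
          have h2 := hc 0
          rw [Fin.cons_zero] at h2
          exact abs_le.mp h2
        filter_upwards [ht ht0] with m hm
        exact hm
      · apply Eventually.of_forall
        intro t h1
        exact absurd (fun l => by
          have := h1 (Fin.succ l)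
          rwa [Fin.cons_succ] at this) hb
    rw [ae_iff] at key
    refine measure_mono_null ?_ key
    intro t ht
    have h2 : (MeasurableEquiv.piFinSuccAbove (fun _ : Fin (j + 4 + i + 1) => ℝ) 0).symm (t, μ') =
        (Fin.cons t μ' : Fin (j + 4 + i + 1) → ℝ) := by
      have h3 : (MeasurableEquiv.piFinSuccAbove (fun _ : Fin (j + 4 + i + 1) => ℝ) 0).symm (t, μ') =
        Fin.insertNth (α := fun _ => ℝ) 0 t μ' := rfl
      rw [h3, Fin.insertNth_zero']
    simp only [Set.mem_preimage, Set.mem_compl_iff, Set.mem_ofPred_eq] at ht ⊢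
    rw [h2] at ht
    exact ht

end Pool.Agent.Y867.WS
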