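import Pool.Agent.Y867.WS.SaH

/-! # Conclusion -/

set_option autoImplicit false

open MeasureTheory Filter Finset
open scoped ENNReal Real

namespace Pool.Agent.Y867.WS

open Pool.Agent.Y867.WC (XX BX final_exp)

theorem good_s (j C L P h i : ℕ) (hP : 1 ≤ P) (μ : Fin (j + 4 + i) → ℝ) (hμ : ∀ l, |μ l| ≤ 1 / 2) (τ : ℝ)
    (h3 : ((L : ℝ) + i * 3 ^ (j + 2)) * (P : ℝ) ^ (j + 2) ≤ τ) (h4 : τ ≤ (C : ℝ) * (P : ℝ) ^ (j + 2))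
    (hτ : τ ∉ Bs j C L P h i μ) :
    ∃ x : Fin (j + 4 + i) → ℤ, (∀ l, (P : ℤ) ≤ x l) ∧ |∑ l, ((x l : ℝ) - μ l) ^ (j + 2) - τ| < 1 / 2 ^ h := by
  induction i generalizing τ with
  | zero =>
    have h5 : ¬((L : ℝ) * (P : ℝ) ^ (j + 2) ≤ τ ∧ τ ≤ (C : ℝ) * (P : ℝ) ^ (j + 2) ∧
      ∀ x ∈ BX (j + 4) P C, 1 / (2 : ℝ) ^ h ≤ |Fs j (j + 4) μ x - τ|) := hτ
    push Not at h5
    have h6 : (L : ℝ) * (P : ℝ) ^ (j + 2) ≤ τ := by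
      simpa using h3
    obtain ⟨x, hx, hx'⟩ := h5 h6 h4
    refine ⟨x, fun l => ?_, hx'⟩
    unfold BX at hx
    rw [Fintype.mem_piFinset] at hx
    have h8 := hx l
    unfold XX at h8
    exact (Finset.mem_Icc.mp h8).1
  | succ i ih =>
    have h5 : ¬(τ - ((P : ℝ) - μ 0) ^ (j + 2) ∈ Bs j C L P h i (Fin.tail μ) ∧
        τ - (2 * (P : ℝ) - μ 0) ^ (j + 2) ∈ Bs j C L P h i (Fin.tail μ)) := hτ
    have hP' : (1 : ℝ) ≤ P := by exact_mod_cast hP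
    have hμ0 := abs_le.mp (hμ 0)
    have h6 : ∃ Y : ℤ, (Y = P ∨ Y = 2 * P) ∧ τ - ((Y : ℝ) - μ 0) ^ (j + 2) ∉ Bs j C L P h i (Fin.tail μ) := by
      by_cases h7 : τ - ((P : ℝ) - μ 0) ^ (j + 2) ∈ Bs j C L P h i (Fin.tail μ)
      · refine ⟨2 * P, Or.inr rfl, ?_⟩
        have h8 : τ - (2 * (P : ℝ) - μ 0) ^ (j + 2) ∉ Bs j C L P h i (Fin.tail μ) := fun h9 => h5 ⟨h7, h9⟩
        push_cast
        exact h8
      · refine ⟨P, Or.inl rfl, ?_⟩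
        push_cast
        exact h7
    obtain ⟨Y, hY, hY'⟩ := h6
    have hYa : (P : ℤ) ≤ Y := by rcases hY with h | h <;> omega
    have hYb : Y ≤ 2 * (P : ℤ) := by rcases hY with h | h <;> omega
    have hYa' : (P : ℝ) ≤ Y := by exact_mod_cast hYa
    have hYb' : (Y : ℝ) ≤ 2 * P := by exact_mod_cast hYb
    have hY1 : ((Y : ℝ) - μ 0) ^ (j + 2) ≤ 3 ^ (j + 2) * (P : ℝ) ^ (j + 2) := by
      rw [← mul_pow]
      exact pow_le_pow_left₀ (by linarith) (by linarith) _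
    have h8 : 0 ≤ ((Y : ℝ) - μ 0) ^ (j + 2) := pow_nonneg (by linarith) _
    obtain ⟨x, hx1, hx⟩ := ih (Fin.tail μ) (fun l => hμ l.succ) (τ - ((Y : ℝ) - μ 0) ^ (j + 2)) (by
      push_cast at h3
      have h9 : ((L : ℝ) + ((i : ℝ) + 1) * 3 ^ (j + 2)) * (P : ℝ) ^ (j + 2) =
        ((L : ℝ) + i * 3 ^ (j + 2)) * (P : ℝ) ^ (j + 2) + 3 ^ (j + 2) * (P : ℝ) ^ (j + 2) := by ring
      rw [h9] at h3
      linarith) (by linarith) hY'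
    refine ⟨(Fin.cons Y x : Fin (j + 4 + i + 1) → ℤ), ?_, ?_⟩
    · intro l
      refine Fin.cases ?_ (fun l' => ?_) l
      · rw [Fin.cons_zero]
        exact hYa
      · rw [Fin.cons_succ]
        exact hx1 l'
    have h9 : ∑ l : Fin (j + 4 + (i + 1)), ((((Fin.cons Y x : Fin (j + 4 + i + 1) → ℤ) l : ℤ) : ℝ) - μ l) ^ (j + 2) =
        ((Y : ℝ) - μ 0) ^ (j + 2) + ∑ l, ((x l : ℝ) - Fin.tail μ l) ^ (j + 2) := by
      have h10 := Fin.sum_univ_succ (n := j + 4 + i)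
        (fun l : Fin (j + 4 + i + 1) => ((((Fin.cons Y x : Fin (j + 4 + i + 1) → ℤ) l : ℤ) : ℝ) - μ l) ^ (j + 2))
      simp only [Fin.cons_zero, Fin.cons_succ] at h10
      exact h10
    rw [h9]
    have h10 : ((Y : ℝ) - μ 0) ^ (j + 2) + ∑ l, ((x l : ℝ) - Fin.tail μ l) ^ (j + 2) - τ =
      ∑ l, ((x l : ℝ) - Fin.tail μ l) ^ (j + 2) - (τ - ((Y : ℝ) - μ 0) ^ (j + 2)) := by ring
    rw [h10]
    exact hx

theorem lams_le (j t m : ℕ) (ht : j + 2 ≤ 2 ^ t) : lams j (6 * (j + 3)) t m ≤ 1 / 2 ^ (m / (6 * (j + 3))) := by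
  unfold lams
  set h := m / (6 * (j + 3)) with hh
  have hm : 6 * (j + 3) * h ≤ m := Nat.mul_div_le m _
  have hPeq : ((2 ^ m : ℕ) : ℝ) = 2 ^ m := by push_cast; ring
  rw [hPeq]
  have hr : (2 : ℝ) ^ (5 * h) / 2 ^ m ≤ 1 := by
    rw [div_le_one (by positivity)]
    apply pow_le_pow_right₀ (by norm_num)
    nlinarith
  have hr0 : 0 ≤ (2 : ℝ) ^ (5 * h) / 2 ^ m := by positivity
  apply div_le_div_of_nonneg_right _ (by positivity)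
  have h1 : ((2 : ℝ) ^ (5 * h) / 2 ^ m) ^ (2 ^ t) ≤ ((2 : ℝ) ^ (5 * h) / 2 ^ m) ^ (j + 2) :=
    pow_le_pow_of_le_one hr0 hr ht
  calc ((2 : ℝ) ^ m) ^ (j + 1) * ((2 : ℝ) ^ (5 * h) / 2 ^ m) ^ (2 ^ t) ≤
        ((2 : ℝ) ^ m) ^ (j + 1) * ((2 : ℝ) ^ (5 * h) / 2 ^ m) ^ (j + 2) := mul_le_mul_of_nonneg_left h1 (by positivity)
    _ = (2 : ℝ) ^ (5 * h * (j + 2)) / 2 ^ m := by
        rw [div_pow, ← pow_mul, ← pow_mul, ← pow_mul, mul_div_assoc', div_eq_div_iff (by positivity) (by positivity),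
          ← pow_add, ← pow_add, ← pow_add]
        congr 1
        ring
    _ ≤ 1 := by
        rw [div_le_one (by positivity)]
        apply pow_le_pow_right₀ (by norm_num)
        nlinarith

/-- one scale -/
theorem scale_s (j t m : ℕ) (ht : j + 2 ≤ 2 ^ t) (L' C : ℕ)
    (hL' : L' = (j + 3) * 2 ^ (j + 2) + 1 + t * 3 ^ (j + 2)) (hC : C = (L' + 1) * 2 ^ (j + 2) + 2)
    (μ : Fin (j + 4 + t) → ℝ) (hμ : ∀ l, |μ l| ≤ 1 / 2)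
    (hb : volume (Bs j C ((j + 3) * 2 ^ (j + 2) + 1) (2 ^ m) (m / (6 * (j + 3))) t μ) ≤
      ENNReal.ofReal (lams j (6 * (j + 3)) t m)) (τ : ℝ) (h3 : ((L' : ℝ) + 1) * ((2 : ℝ) ^ m) ^ (j + 2) ≤ τ)
    (h4 : τ ≤ ((L' : ℝ) + 1) * 2 ^ (j + 2) * ((2 : ℝ) ^ m) ^ (j + 2)) :
    ∃ x : Fin (j + 4 + t) → ℤ, (∀ l, ((2 ^ m : ℕ) : ℤ) ≤ x l) ∧
      |∑ l, ((x l : ℝ) - μ l) ^ (j + 2) - τ| < 2 / 2 ^ (m / (6 * (j + 3))) := by
  set h := m / (6 * (j + 3)) with hh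
  by_contra hcon
  push Not at hcon
  have hP1 : (1 : ℝ) ≤ ((2 : ℝ) ^ m) ^ (j + 2) := one_le_pow₀ (one_le_pow₀ (by norm_num))
  have h2h : (0 : ℝ) < 2 ^ h := by positivity
  have h2h1 : (1 : ℝ) / 2 ^ h ≤ 1 := by
    rw [div_le_one h2h]
    exact one_le_pow₀ (by norm_num)
  have hPc : ((2 ^ m : ℕ) : ℝ) = 2 ^ m := by push_cast; ring
  have hsub : Set.Icc (τ - 1 / 2 ^ h) (τ + 1 / 2 ^ h) ⊆
      Bs j C ((j + 3) * 2 ^ (j + 2) + 1) (2 ^ m) h t μ := by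
    intro τ' hτ'
    by_contra hn
    have hlow : ((((j + 3) * 2 ^ (j + 2) + 1 : ℕ) : ℝ) + t * 3 ^ (j + 2)) * ((2 ^ m : ℕ) : ℝ) ^ (j + 2) ≤ τ' := by
      have h5 : ((((j + 3) * 2 ^ (j + 2) + 1 : ℕ) : ℝ) + t * 3 ^ (j + 2)) = (L' : ℝ) := by
        rw [hL']
        push_cast
        ring
      rw [h5, hPc]
      have h6 : ((L' : ℝ) + 1) * ((2 : ℝ) ^ m) ^ (j + 2) = L' * ((2 : ℝ) ^ m) ^ (j + 2) + ((2 : ℝ) ^ m) ^ (j + 2) := by ring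
      rw [h6] at h3
      linarith [hτ'.1]
    have hup : τ' ≤ (C : ℝ) * ((2 ^ m : ℕ) : ℝ) ^ (j + 2) := by
      rw [hPc, hC]
      push_cast
      have h6 : (((L' : ℝ) + 1) * 2 ^ (j + 2) + 2) * ((2 : ℝ) ^ m) ^ (j + 2) =
        ((L' : ℝ) + 1) * 2 ^ (j + 2) * ((2 : ℝ) ^ m) ^ (j + 2) + 2 * ((2 : ℝ) ^ m) ^ (j + 2) := by ring
      rw [h6]
      linarith [hτ'.2]
    obtain ⟨x, hx1, hx⟩ := good_s j C ((j + 3) * 2 ^ (j + 2) + 1) (2 ^ m) h t Nat.one_le_two_pow μ hμ τ' hlow hup hn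
    have h7 := hcon x hx1
    have h8 : |τ' - τ| ≤ 1 / 2 ^ h := by
      rw [abs_le]
      constructor <;> linarith [hτ'.1, hτ'.2]
    have h9 : |∑ l, ((x l : ℝ) - μ l) ^ (j + 2) - τ| ≤ |∑ l, ((x l : ℝ) - μ l) ^ (j + 2) - τ'| + |τ' - τ| :=
      abs_sub_le _ _ _
    have h11 : (2 : ℝ) / 2 ^ h = 1 / 2 ^ h + 1 / 2 ^ h := by ring
    linarith
  have h5 := measure_mono (μ := volume) hsub
  rw [Real.volume_Icc] at h5
  have h6 := (h5.trans hb).trans (ENNReal.ofReal_le_ofReal (lams_le j t m ht))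
  rw [ENNReal.ofReal_le_ofReal_iff (by positivity)] at h6
  have h7 : (0 : ℝ) < 1 / 2 ^ h := by positivity
  linarith

/-- the property of the shifts -/
def Good (k s : ℕ) (κ : ℝ) (μ : Fin s → ℝ) : Prop :=
  ∀ R : ℕ, ∃ T : ℝ, ∀ τ : ℝ, T ≤ τ → ∃ x : Fin s → ℤ, (∀ l, (R : ℤ) ≤ x l) ∧
    |∑ l, ((x l : ℝ) - μ l) ^ k - τ| < τ ^ (-κ)

theorem main_s (j t : ℕ) (ht : j + 2 ≤ 2 ^ t) :
    ∀ᵐ μ : Fin (j + 4 + t) → ℝ, (∀ l, |μ l| ≤ 1 / 2) →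
      Good (j + 2) (j + 4 + t) (1 / (8 * ((j : ℝ) + 2) * (j + 3))) μ := by
  set L' := (j + 3) * 2 ^ (j + 2) + 1 + t * 3 ^ (j + 2) with hL'
  filter_upwards [stageNs j ((L' + 1) * 2 ^ (j + 2) + 2) (6 * (j + 3)) (by omega) (by omega) t] with μ hμ hpos R
  have h1 := hμ hpos
  obtain ⟨m1, hm1⟩ := eventually_atTop.mp h1
  obtain ⟨m0, hm0⟩ := final_exp j L'
  refine ⟨((L' : ℝ) + 1) * ((2 : ℝ) ^ (j + 2)) ^ (m0 + m1 + R), fun τ hτ => ?_⟩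
  have hL1 : (0 : ℝ) < (L' : ℝ) + 1 := by positivity
  have hτ1 : ((2 : ℝ) ^ (j + 2)) ^ (m0 + m1 + R) ≤ τ / ((L' : ℝ) + 1) := by
    rw [le_div_iff₀ hL1]
    linarith
  have h2k : (1 : ℝ) < 2 ^ (j + 2) := one_lt_pow₀ (by norm_num) (by omega)
  have hone : (1 : ℝ) ≤ τ / ((L' : ℝ) + 1) := le_trans (one_le_pow₀ h2k.le) hτ1
  obtain ⟨m, hma, hmb⟩ := exists_nat_pow_near hone h2k
  have hmm : m0 + m1 + R ≤ m := by
    by_contra hlt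
    push Not at hlt
    have h5 : ((2 : ℝ) ^ (j + 2)) ^ (m + 1) ≤ ((2 : ℝ) ^ (j + 2)) ^ (m0 + m1 + R) := pow_le_pow_right₀ h2k.le hlt
    linarith
  rw [le_div_iff₀ hL1] at hma
  rw [div_lt_iff₀ hL1] at hmb
  have hcomm : ((2 : ℝ) ^ (j + 2)) ^ m = ((2 : ℝ) ^ m) ^ (j + 2) := by rw [← pow_mul, ← pow_mul, mul_comm]
  have h3 : ((L' : ℝ) + 1) * ((2 : ℝ) ^ m) ^ (j + 2) ≤ τ := by
    rw [← hcomm]
    linarith
  have h4 : τ ≤ ((L' : ℝ) + 1) * 2 ^ (j + 2) * ((2 : ℝ) ^ m) ^ (j + 2) := by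
    rw [← hcomm]
    rw [pow_succ] at hmb
    linarith
  have hτ0 : 0 < τ := lt_of_lt_of_le (by positivity) h3
  obtain ⟨x, hx1, hx⟩ := scale_s j t m ht L' ((L' + 1) * 2 ^ (j + 2) + 2) hL' rfl μ hpos (hm1 m (by omega)) τ h3 h4
  refine ⟨x, fun l => le_trans ?_ (hx1 l), hx.trans_le (hm0 m (by omega) τ hτ0 h4)⟩
  have h5 : m < 2 ^ m := Nat.lt_two_pow_self
  have h6 : R ≤ 2 ^ m := by omega
  exact_mod_cast h6

theorem Good_add (k s : ℕ) (κ : ℝ) (μ : Fin s → ℝ) (a : Fin s → ℤ) (h : Good k s κ (fun l => μ l - a l)) :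
    Good k s κ μ := by
  intro R
  obtain ⟨T, hT⟩ := h (R + ∑ l, (a l).natAbs)
  refine ⟨T, fun τ hτ => ?_⟩
  obtain ⟨x, hx1, hx⟩ := hT τ hτ
  refine ⟨fun l => x l + a l, fun l => ?_, ?_⟩
  · have h1 := hx1 l
    have h2 : (a l).natAbs ≤ ∑ l, (a l).natAbs :=
      Finset.single_le_sum (f := fun l => (a l).natAbs) (fun _ _ => Nat.zero_le _) (Finset.mem_univ l)
    push_cast at h1
    have h3 : ((a l).natAbs : ℤ) ≤ ((∑ l, (a l).natAbs : ℕ) : ℤ) := by exact_mod_cast h2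
    push_cast at h3
    have h4 := neg_abs_le (a l)
    linarith
  · have h1 : ∀ l, ((((x l + a l : ℤ)) : ℝ) - μ l) = (x l : ℝ) - (μ l - a l) := by
      intro l
      push_cast
      ring
    simp_rw [h1]
    exact hx

theorem main_all (j t : ℕ) (ht : j + 2 ≤ 2 ^ t) :
    ∀ᵐ μ : Fin (j + 4 + t) → ℝ, Good (j + 2) (j + 4 + t) (1 / (8 * ((j : ℝ) + 2) * (j + 3))) μ := by
  have h1 := main_s j t ht
  have h2 : ∀ᵐ μ : Fin (j + 4 + t) → ℝ, ∀ a : Fin (j + 4 + t) → ℤ, (∀ l, |μ l - a l| ≤ 1 / 2) →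
      Good (j + 2) (j + 4 + t) (1 / (8 * ((j : ℝ) + 2) * (j + 3))) (fun l => μ l - a l) := by
    rw [ae_all_iff]
    intro a
    have h3 := (measurePreserving_sub_right (volume : Measure (Fin (j + 4 + t) → ℝ))
      (fun l => (a l : ℝ))).quasiMeasurePreserving.ae h1
    filter_upwards [h3] with μ hμ hl
    exact hμ hl
  filter_upwards [h2] with μ hμ
  exact Good_add _ _ _ μ (fun l => round (μ l)) (hμ (fun l => round (μ l)) (fun l => abs_sub_round _))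

/-- real form -/
theorem main_real (j t : ℕ) (ht : j + 2 ≤ 2 ^ t) :
    ∀ᵐ μ : Fin (j + 4 + t) → ℝ, ∃ T : ℝ, ∀ τ : ℝ, T ≤ τ → ∃ x : Fin (j + 4 + t) → ℕ, (∀ l, μ l < x l) ∧
      |∑ l, ((x l : ℝ) - μ l) ^ (j + 2) - τ| < τ ^ (-(1 / (8 * ((j : ℝ) + 2) * (j + 3)))) := by
  filter_upwards [main_all j t ht] with μ hμ
  obtain ⟨R, hR⟩ := exists_nat_gt (∑ l, |μ l|)
  obtain ⟨T, hT⟩ := hμ R
  refine ⟨T, fun τ hτ => ?_⟩
  obtain ⟨x, hx1, hx⟩ := hT τ hτ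
  have h1 : ∀ l, (((x l).toNat : ℕ) : ℝ) = (x l : ℝ) := by
    intro l
    have h2 : (0 : ℤ) ≤ x l := le_trans (by positivity) (hx1 l)
    have h3 : (((x l).toNat : ℕ) : ℤ) = x l := Int.toNat_of_nonneg h2
    exact_mod_cast h3
  refine ⟨fun l => (x l).toNat, fun l => ?_, ?_⟩
  · show μ l < (((x l).toNat : ℕ) : ℝ)
    rw [h1]
    have h2 : ((R : ℤ) : ℝ) ≤ x l := by exact_mod_cast hx1 l
    push_cast at h2
    have h3 : |μ l| ≤ ∑ l, |μ l| :=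
      Finset.single_le_sum (f := fun l => |μ l|) (fun _ _ => abs_nonneg _) (Finset.mem_univ l)
    have h4 := le_abs_self (μ l)
    linarith
  · have h2 : ∑ l, ((((x l).toNat : ℕ) : ℝ) - μ l) ^ (j + 2) = ∑ l, ((x l : ℝ) - μ l) ^ (j + 2) :=
      Finset.sum_congr rfl fun l _ => by rw [h1]
    rw [h2]
    exact hx

end Pool.Agent.Y867.WS
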